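import Pool.Agent.W_f569db_h69.Core

set_option autoImplicit false

/-!
# The core theorem for operators which are preserved up to scalars
-/

set_option linter.unusedSectionVars false

universe u

namespace H69

open Matrix Finset

section kempf

variable {α I : Type*} [Fintype α] [DecidableEq α] {F : Type*} [Field F]
  {ι : Type*} [Fintype ι] [DecidableEq ι]

/-- `Pos` and the elements which preserve `x` up to a scalar. -/
theorem Pos.of_comm_smul {x : Matrix (ι → α) (ι → α) F} {g γ : (Matrix α α F)ˣ} {ξ : α → ℝ}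
    (h : Pos x g ξ) {ρ : F} (hρ : ρ ≠ 0)
    (hγ : ten ι (γ : Matrix α α F) * x = ρ • (x * ten ι (γ : Matrix α α F))) :
    Pos x (γ * g) ξ := by
  have key : ρ • cj (γ * g)⁻¹ x = cj g⁻¹ x := by
    rw [kempfA_cj_inv, kempfA_cj_inv, _root_.mul_inv_rev, Units.val_mul, Units.val_mul, ten_mul,
      ten_mul]
    calc ρ • (ten ι ((g⁻¹ : (Matrix α α F)ˣ) : Matrix α α F) *
            ten ι ((γ⁻¹ : (Matrix α α F)ˣ) : Matrix α α F) * x *
            (ten ι (γ : Matrix α α F) * ten ι (g : Matrix α α F)))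
        = ten ι ((g⁻¹ : (Matrix α α F)ˣ) : Matrix α α F) *
            (ten ι ((γ⁻¹ : (Matrix α α F)ˣ) : Matrix α α F) *
              (ρ • (x * ten ι (γ : Matrix α α F)))) *
            ten ι (g : Matrix α α F) := by
              rw [Matrix.mul_smul, Matrix.mul_smul, Matrix.smul_mul]
              simp only [mul_assoc]
      _ = ten ι ((g⁻¹ : (Matrix α α F)ˣ) : Matrix α α F) *
            (ten ι ((γ⁻¹ : (Matrix α α F)ˣ) : Matrix α α F) * ten ι (γ : Matrix α α F) * x) *
            ten ι (g : Matrix α α F) := by rw [← hγ]; simp only [mul_assoc]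
      _ = _ := by rw [ten_inv_mul, one_mul]
  intro a b hab
  apply h a b
  rw [← key, Matrix.smul_apply, smul_eq_mul]
  exact mul_ne_zero hρ hab

/-- `not_pos` for operators which are preserved up to scalars. -/
theorem not_pos_smul (c : α → I) (w : ι → I) (x : Matrix (ι → α) (ι → α) F) (hx0 : x ≠ 0)
    (hx : Supp c w x) (S : Set (Matrix α α F)ˣ) (hSc : S ⊆ BG c F)
    (hS : ∀ a b, c a = c b → ∃ T ∈ Submodule.span F ((fun g : (Matrix α α F)ˣ =>
      (g : Matrix α α F)) '' S), ∀ a' b', c a' = c a → c b' = c a →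
        T a' b' = if a' = a ∧ b' = b then 1 else 0)
    (hcomm : ∀ γ ∈ S, ∃ ρ : F, ρ ≠ 0 ∧
      ten ι (γ : Matrix α α F) * x = ρ • (x * ten ι (γ : Matrix α α F))) :
    ¬ ∃ g ∈ BG c F, ∃ ξ : α → ℝ, Pos x g ξ := by
  classical
  intro hex
  obtain ⟨g, hg, ξ, hP, hmin⟩ := exists_minimal c x hex
  have hsame : ∀ γ ∈ S, Le ((g⁻¹ * (γ * g) : (Matrix α α F)ˣ) : Matrix α α F) ξ ξ := by
    intro γ hγ
    obtain ⟨ρ, hρ, hρ'⟩ := hcomm γ hγ
    have h1 : Pos x (γ * g) ξ := hP.of_comm_smul hρ hρ'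
    exact (unique_minimal c x hg (mul_mem (hSc hγ) hg) hP h1 hmin le_rfl).1
  have hspan : ∀ T ∈ Submodule.span F ((fun g : (Matrix α α F)ˣ => (g : Matrix α α F)) '' S),
      ∀ q r, (((g⁻¹ : (Matrix α α F)ˣ) : Matrix α α F) * T * (g : Matrix α α F)) q r ≠ 0 →
        ξ r ≤ ξ q := by
    intro T hT q r hne
    by_contra hlt
    apply hne
    refine Kempf_span g _ q r ?_ T hT
    rintro _ ⟨γ, hγ, rfl⟩
    by_contra hne'
    apply hlt
    apply hsame γ hγ q r
    rw [Units.val_mul, Units.val_mul, ← Matrix.mul_assoc]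
    exact hne'
  choose! Tm hTs hTb using hS
  have hle : ∀ a b, c a = c b → ξ b ≤ ξ a := by
    intro a b hab
    obtain ⟨T', hT'⟩ : ∃ T' : Matrix α α F, T' = (g : Matrix α α F) * Matrix.single a b 1 *
      ((g⁻¹ : (Matrix α α F)ˣ) : Matrix α α F) := ⟨_, rfl⟩
    obtain ⟨T, hT⟩ : ∃ T : Matrix α α F, T = ∑ p ∈ univ.filter (fun p => c p = c a),
      ∑ q ∈ univ.filter (fun q => c q = c a), T' p q • Tm p q := ⟨_, rfl⟩
    have hTspan : T ∈ Submodule.span F ((fun g : (Matrix α α F)ˣ => (g : Matrix α α F)) '' S) := by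
      rw [hT]
      refine Submodule.sum_mem _ fun p hp => Submodule.sum_mem _ fun q hq => ?_
      rw [Finset.mem_filter] at hp hq
      exact Submodule.smul_mem _ _ (hTs p q (hp.2.trans hq.2.symm))
    have hTT : ∀ p q, c p = c a → c q = c b → T p q = T' p q := by
      intro p q hp hq
      have hq' : c q = c a := hq.trans hab.symm
      rw [hT, Matrix.sum_apply]
      rw [Finset.sum_eq_single p]
      · rw [Matrix.sum_apply, Finset.sum_eq_single q]
        · rw [Matrix.smul_apply, hTb p q (hp.trans hq'.symm) p q rfl (hq'.trans hp.symm),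
            if_pos ⟨rfl, rfl⟩, smul_eq_mul, mul_one]
        · intro q1 hq1 hne
          rw [Finset.mem_filter] at hq1
          rw [Matrix.smul_apply, hTb p q1 (hp.trans hq1.2.symm) p q rfl (hq'.trans hp.symm),
            if_neg (fun h => hne h.2.symm), smul_zero]
        · intro h
          exact (h (Finset.mem_filter.2 ⟨mem_univ q, hq'⟩)).elim
      · intro p1 hp1 hne
        rw [Finset.mem_filter] at hp1
        rw [Matrix.sum_apply]
        refine Finset.sum_eq_zero fun q1 hq1 => ?_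
        rw [Finset.mem_filter] at hq1
        rw [Matrix.smul_apply, hTb p1 q1 (hp1.2.trans hq1.2.symm) p q (hp.trans hp1.2.symm)
          (hq'.trans hp1.2.symm), if_neg (fun h => hne h.1.symm), smul_zero]
      · intro h
        exact (h (Finset.mem_filter.2 ⟨mem_univ p, hp⟩)).elim
    refine hspan T hTspan a b ?_
    rw [Kempf_entry c hg T T' a b hTT, hT']
    have e1 : ((g⁻¹ : (Matrix α α F)ˣ) : Matrix α α F) * ((g : Matrix α α F) *
        Matrix.single a b 1 * ((g⁻¹ : (Matrix α α F)ˣ) : Matrix α α F)) * (g : Matrix α α F) =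
        Matrix.single a b 1 := by
      rw [Matrix.mul_assoc (g : Matrix α α F), ← Matrix.mul_assoc, Units.inv_mul, Matrix.one_mul,
        Matrix.mul_assoc, Units.inv_mul, Matrix.mul_one]
    rw [e1, Matrix.single_apply_same]
    exact one_ne_zero
  have hconst : ∀ a b, c a = c b → ξ a = ξ b := fun a b hab =>
    le_antisymm (hle b a hab.symm) (hle a b hab)
  have hcj : cj g⁻¹ x = 0 := by
    ext a b
    rw [Matrix.zero_apply]
    by_contra hne
    have h1 := hP a b hne
    unfold cj at hne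
    rw [inv_inv, Matrix.mul_apply] at hne
    obtain ⟨b', -, hb'⟩ := Finset.exists_ne_zero_of_sum_ne_zero hne
    have h2 := left_ne_zero_of_mul hb'
    have h3 := right_ne_zero_of_mul hb'
    rw [Matrix.mul_apply] at h2
    obtain ⟨a', -, ha'⟩ := Finset.exists_ne_zero_of_sum_ne_zero h2
    have h4 := left_ne_zero_of_mul ha'
    obtain ⟨h5, h6⟩ := hx a' b' (right_ne_zero_of_mul ha')
    have h7 : ∀ s, ξ (a s) = ξ (b s) := fun s => hconst _ _ (by
      rw [ten_ne_zero (mem_BG.1 hg).2 h4 s, h5 s, ← ten_ne_zero (mem_BG.1 hg).1 h3 s, h6 s])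
    have h8 : ∑ s, ξ (a s) = ∑ s, ξ (b s) := Finset.sum_congr rfl fun s _ => h7 s
    rw [h8, sub_self] at h1
    exact absurd h1 (by norm_num)
  apply hx0
  have h9 : x = ten ι (g : Matrix α α F) * cj g⁻¹ x *
      ten ι ((g⁻¹ : (Matrix α α F)ˣ) : Matrix α α F) := by
    unfold cj
    rw [inv_inv, Matrix.mul_assoc (ten ι ((g⁻¹ : (Matrix α α F)ˣ) : Matrix α α F)),
      ← Matrix.mul_assoc, ten_mul_inv, Matrix.one_mul, Matrix.mul_assoc, ten_mul_inv,
      Matrix.mul_one]
  rw [h9, hcj, Matrix.mul_zero, Matrix.zero_mul]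

end kempf

variable {α : Type} {I : Type*} [Fintype α] [DecidableEq α]

/-- Core theorem, for an operator `x ≠ 0` on `⊗_s V_{w s}` such that `g x g⁻¹` is a multiple of `x`
for all `g` in a set of elements of `∏ GL(V_i)` which acts absolutely irreducibly on each `V_i`: some
trace invariant `Tr(P_σ x^{⊗ d})`, `d ≥ 1`, is not zero. -/
theorem core_smul (c : α → I) {ι : Type} [Fintype ι] [DecidableEq ι] (w : ι → I)
    {K : Type u} [Field K] [CharZero K] (x : Matrix (ι → α) (ι → α) K) (hx0 : x ≠ 0)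
    (hx : Supp c w x) (S : Set (Matrix α α K)ˣ) (hSc : S ⊆ BG c K)
    (hS : ∀ a b, c a = c b → ∃ T ∈ Submodule.span K ((fun g : (Matrix α α K)ˣ =>
      (g : Matrix α α K)) '' S), ∀ a' b', c a' = c a → c b' = c a →
        T a' b' = if a' = a ∧ b' = b then 1 else 0)
    (hcomm : ∀ γ ∈ S, ∃ ρ : K, ten ι (γ : Matrix α α K) * x =
      ρ • (x * ten ι (γ : Matrix α α K))) :
    ∃ (d : ℕ) (σ : Equiv.Perm (Fin (d + 1) × ι)),
      ∑ a : Fin (d + 1) × ι → α, ∏ k, x (fun s => a (k, s)) (fun s => a (σ (k, s))) ≠ 0 := by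
  by_contra hcon
  have htr : ∀ (d : ℕ) (σ : Equiv.Perm (Fin (d + 1) × ι)),
      ∑ a : Fin (d + 1) × ι → α, ∏ k, x (fun s => a (k, s)) (fun s => a (σ (k, s))) = 0 := by
    intro d σ
    by_contra h
    exact hcon ⟨d, σ, h⟩
  obtain ⟨F, _, θ, g, hg, ξ, hpos⟩ := exists_pos c x
    (fun A hA => no_unit c w x hx htr A hA)
  let Θ : (Matrix α α K)ˣ →* (Matrix α α F)ˣ := Units.map θ.mapMatrix.toMonoidHom
  have hΘ : ∀ γ : (Matrix α α K)ˣ, ((Θ γ : (Matrix α α F)ˣ) : Matrix α α F) =
      (γ : Matrix α α K).map θ := fun γ => rfl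
  have hΘi : ∀ γ : (Matrix α α K)ˣ, (((Θ γ)⁻¹ : (Matrix α α F)ˣ) : Matrix α α F) =
      ((γ⁻¹ : (Matrix α α K)ˣ) : Matrix α α K).map θ := by
    intro γ
    rw [← map_inv]
    rfl
  refine not_pos_smul c w (x.map θ) ?_ ?_ (Θ '' S) ?_ ?_ ?_ ⟨g, hg, ξ, hpos⟩
  · intro h
    apply hx0
    ext a b
    have := congrFun (congrFun h a) b
    rw [Matrix.map_apply] at this
    simpa using this
  · intro a b hab
    apply hx a b
    intro h0
    apply hab
    rw [Matrix.map_apply, h0, map_zero]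
  · rintro _ ⟨γ, hγ, rfl⟩
    have h1 := mem_BG.1 (hSc hγ)
    refine mem_BG.2 ⟨?_, ?_⟩
    · rw [hΘ]; exact h1.1.map θ
    · rw [hΘi]; exact h1.2.map θ
  · intro a b hab
    obtain ⟨T, hT, hT2⟩ := hS a b hab
    refine ⟨T.map θ, ?_, ?_⟩
    · clear hT2
      induction hT using Submodule.span_induction with
      | mem y hy =>
        obtain ⟨γ, hγ, rfl⟩ := hy
        exact Submodule.subset_span ⟨Θ γ, ⟨γ, hγ, rfl⟩, rfl⟩
      | zero =>
        rw [Matrix.map_zero _ (map_zero θ)]
        exact Submodule.zero_mem _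
      | add y z _ _ h1 h2 =>
        rw [Matrix.map_add _ (map_add θ)]
        exact Submodule.add_mem _ h1 h2
      | smul r y _ h1 =>
        have : (r • y).map θ = θ r • y.map θ := by
          ext i j
          simp [Matrix.map_apply]
        rw [this]
        exact Submodule.smul_mem _ _ h1
    · intro a' b' ha hb
      rw [Matrix.map_apply, hT2 a' b' ha hb]
      split_ifs <;> simp
  · rintro _ ⟨γ, hγ, rfl⟩
    obtain ⟨ρ, h1⟩ := hcomm γ hγ
    refine ⟨θ ρ, ?_, ?_⟩
    · intro h0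
      have h2 : ρ = 0 := by simpa using h0
      rw [h2, zero_smul] at h1
      apply hx0
      calc x = ten ι ((γ⁻¹ : (Matrix α α K)ˣ) : Matrix α α K) *
            (ten ι (γ : Matrix α α K) * x) := by
              rw [← Matrix.mul_assoc, ten_inv_mul, Matrix.one_mul]
        _ = 0 := by rw [h1, Matrix.mul_zero]
    · have h2 : (ρ • (x * ten ι (γ : Matrix α α K))).map θ =
          θ ρ • (x * ten ι (γ : Matrix α α K)).map θ := by
        ext i j
        rw [Matrix.map_apply, Matrix.smul_apply, Matrix.smul_apply, Matrix.map_apply, smul_eq_mul,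
          smul_eq_mul, map_mul]
      rw [hΘ, ← ten_map, ← Matrix.map_mul, h1, h2, Matrix.map_mul]

end H69
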