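import Pool.Agent.WeilH_h6.Main
import Pool.Agent.WeilH_h6.Conv
import Pool.Agent.WeilH_h6.Orbit

set_option autoImplicit false

/-!
# Standard conjecture D for all powers of a variety with absolutely irreducible pieces

`W` is a Weil cohomology theory with coefficients in a field `K` of characteristic zero, `X` is a
variety whose cohomology is generated, as a `K`-algebra, by finitely many direct summands
`V_i = p_i H(X)` cut out by algebraic idempotents, and `S` is a set of symmetries of `H(X)` (for
instance a Galois group, or a monodromy group) which acts absolutely irreducibly on every `V_i`.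

Then `D(X^m)` holds for all `m` if and only if the set of the multidegrees of the words in the `V_i`
and `V_i^∨` whose tensor product contains a nonzero algebraic class is symmetric, up to multiples.

In particular it holds if a finite group `G` acts on the indices, preserving the words with a nonzero
algebraic class (for instance the Galois group of `K` over a subfield over which the cohomology theory
is defined), and for every `i` and each sign there is a nonempty word with a nonzero algebraic class
whose letters are `V_j`, `j ∈ G i` (respectively `V_j^∨`); for instance if `V_i` is paired with a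
conjugate `V_{g i}` by algebraic classes.
-/

namespace Pool.Agent.W_f569db_h6.DegreeCriterion

open Pool.Agent.WeilH_h6 VarClass

universe u v w

theorem result {k : Type u} [Field k] {𝒱 : VarClass k} {K : Type v} [Field K] [CharZero K]
    (W : Weil.{u, v, w} 𝒱 K) (X : 𝒱.Obj) {I : Type} [Fintype I] (P : W.Pieces X I)
    (hP : P.Generate) (S : Set (W.Hom X X)) (hS : P.AbsIrr S) :
    ((∀ m : ℕ, W.HomEqNum (X.pow m)) ↔ P.DegSymm) ∧
    ∀ (G : Type) [Group G] [Finite G] [MulAction G I],
      (∀ (g : G) (m : ℕ) (l : Fin m → I × Bool), P.HasClass l →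
        P.HasClass fun s => (g • (l s).1, (l s).2)) →
      (∀ (i : I) (b : Bool), ∃ (m : ℕ) (l : Fin (m + 1) → I × Bool),
        (∀ s, (l s).1 ∈ MulAction.orbit G i ∧ (l s).2 = b) ∧ P.HasClass l) →
      ∀ m : ℕ, W.HomEqNum (X.pow m) := by
  refine ⟨⟨fun h => P.degSymm_iff.2 (P.degSymm_of_homEqNum h),
    fun h => P.homEqNum_of_degSymm hP hS (P.degSymm_iff.1 h)⟩, ?_⟩
  intro G _ _ _ hG h
  refine P.homEqNum_of_degSymm hP hS (P.degSymm_of_orbits (G := G) ?_ ?_)
  · intro g m l z h1 h2 h3
    obtain ⟨z', h4, h5, h6⟩ := hG g m l ⟨z, h1, h2, h3⟩
    exact ⟨z', h4, h5, h6⟩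
  · intro i b
    obtain ⟨m, l, h1, z, h2, h3, h4⟩ := h i b
    exact ⟨m, l, z, h1, h2, h3, h4⟩

end Pool.Agent.W_f569db_h6.DegreeCriterion
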