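import Pool.Agent.WeilH_h6.Adj
import Pool.Agent.WeilH_h6.BoxNZ
import Pool.Agent.WeilH_h6.Sel

set_option autoImplicit false

/-!
# External products of operators on `H(X^m)` and `H(X^d)`, and the trace of a permuted class
-/

noncomputable section

namespace Pool.Agent.WeilH_h6

open AlgebraicGeometry CategoryTheory MonoidalCategory
open scoped TensorProduct DirectSum
open VarClass

universe u v w

namespace VarClass

variable {k : Type u} [Field k] {𝒱 : VarClass k}

/-- The isomorphism `X^(m+d) → X^m × X^d`. -/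
def Obj.splitM (X : 𝒱.Obj) (m d : ℕ) : X.pow (m + d) ⟶ (X.pow m).prod (X.pow d) :=
  Obj.lift (Obj.sel X (Fin.castAdd d)) (Obj.sel X (Fin.natAdd m))

/-- The morphism `Y → X^(m+d)` with components in `X^m` and `X^d`. -/
def Obj.joinP {Y X : 𝒱.Obj} {m d : ℕ} (f : Y ⟶ X.pow m) (g : Y ⟶ X.pow d) : Y ⟶ X.pow (m + d) :=
  Obj.liftP (m + d) (Fin.addCases (fun i => f ≫ Obj.proj X m i) fun i => g ≫ Obj.proj X d i)

lemma Obj.joinP_left {Y X : 𝒱.Obj} {m d : ℕ} (f : Y ⟶ X.pow m) (g : Y ⟶ X.pow d) :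
    Obj.joinP f g ≫ Obj.sel X (Fin.castAdd d) = f := by
  refine Obj.pow_hom_ext fun s => ?_
  rw [Category.assoc, Obj.sel_proj]
  unfold Obj.joinP
  rw [Obj.liftP_proj, Fin.addCases_left]

lemma Obj.joinP_right {Y X : 𝒱.Obj} {m d : ℕ} (f : Y ⟶ X.pow m) (g : Y ⟶ X.pow d) :
    Obj.joinP f g ≫ Obj.sel X (Fin.natAdd m) = g := by
  refine Obj.pow_hom_ext fun s => ?_
  rw [Category.assoc, Obj.sel_proj]
  unfold Obj.joinP
  rw [Obj.liftP_proj, Fin.addCases_right]

/-- The inverse of `splitM`. -/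
def Obj.joinM (X : 𝒱.Obj) (m d : ℕ) : (X.pow m).prod (X.pow d) ⟶ X.pow (m + d) :=
  Obj.joinP (Obj.fst _ _) (Obj.snd _ _)

lemma Obj.join_split (X : 𝒱.Obj) (m d : ℕ) : Obj.joinM X m d ≫ Obj.splitM X m d = 𝟙 _ := by
  refine Obj.hom_ext ?_ ?_
  · rw [Category.assoc, Category.id_comp]
    unfold Obj.splitM Obj.joinM
    rw [Obj.lift_fst, Obj.joinP_left]
  · rw [Category.assoc, Category.id_comp]
    unfold Obj.splitM Obj.joinM
    rw [Obj.lift_snd, Obj.joinP_right]

lemma Obj.split_join (X : 𝒱.Obj) (m d : ℕ) : Obj.splitM X m d ≫ Obj.joinM X m d = 𝟙 _ := by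
  refine Obj.pow_hom_ext fun s => ?_
  unfold Obj.splitM Obj.joinM Obj.joinP
  rw [Category.assoc, Obj.liftP_proj, Category.id_comp]
  refine Fin.addCases (fun i => ?_) (fun i => ?_) s
  · rw [Fin.addCases_left, ← Category.assoc, Obj.lift_fst, Obj.sel_proj]
  · rw [Fin.addCases_right, ← Category.assoc, Obj.lift_snd, Obj.sel_proj]

end VarClass

open VarClass

namespace Weil

variable {k : Type u} [Field k] {𝒱 : VarClass k} {K : Type v} [Field K] (W : Weil.{u, v, w} 𝒱 K)

lemma pull_splitM {X : 𝒱.Obj} {m d : ℕ} (a : W.H (X.pow m)) (b : W.H (X.pow d)) :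
    W.pull (Obj.splitM X m d) (W.p1 (X.pow m) (X.pow d) a * W.p2 (X.pow m) (X.pow d) b) =
      W.box2 a b := by
  unfold Obj.splitM box2
  rw [map_mul, ← W.pull_comp, ← W.pull_comp, Obj.lift_fst, Obj.lift_snd]

lemma pull_joinM {X : 𝒱.Obj} {m d : ℕ} (a : W.H (X.pow m)) (b : W.H (X.pow d)) :
    W.pull (Obj.joinM X m d) (W.box2 a b) =
      W.p1 (X.pow m) (X.pow d) a * W.p2 (X.pow m) (X.pow d) b := by
  rw [← W.pull_splitM, ← W.pull_comp, Obj.join_split, W.pull_id]

lemma pull_joinP {Y X : 𝒱.Obj} {m d : ℕ} (f : Y ⟶ X.pow m) (g : Y ⟶ X.pow d)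
    (a : W.H (X.pow m)) (b : W.H (X.pow d)) :
    W.pull (Obj.joinP f g) (W.box2 a b) = W.pull f a * W.pull g b := by
  unfold box2
  rw [map_mul, ← W.pull_comp, ← W.pull_comp, Obj.joinP_left, Obj.joinP_right]

/-- Products of classes of `X^m` and `X^d` span the cohomology of `X^(m+d)`. -/
lemma box2_induction {X : 𝒱.Obj} {m d : ℕ} {P : W.H (X.pow (m + d)) → Prop}
    (hadd : ∀ a b, P a → P b → P (a + b)) (hm : ∀ x y, P (W.box2 x y))
    (u : W.H (X.pow (m + d))) : P u := by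
  have h : u = W.pull (Obj.splitM X m d) (W.pull (Obj.joinM X m d) u) := by
    rw [← W.pull_comp, Obj.split_join, W.pull_id]
  rw [h]
  refine W.kunneth_induction (X.pow m) (X.pow d) (P := fun u => P (W.pull (Obj.splitM X m d) u))
    ?_ ?_ _
  · intro a b ha hb
    rw [map_add]
    exact hadd _ _ ha hb
  · intro x y
    rw [W.pull_splitM]
    exact hm x y

/-- External products of nonzero classes are not zero. -/
lemma wc_box2_ne_zero {X : 𝒱.Obj} {m m' : ℕ} {a : W.H (X.pow m)} {b : W.H (X.pow m')}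
    (ha : a ≠ 0) (hb : b ≠ 0) : W.box2 a b ≠ 0 := by
  intro h0
  have h1 : W.ku (X.pow m) (X.pow m') (a ⊗ₜ b) = 0 := by
    rw [ku_tmul, ← W.pull_joinM, h0, map_zero]
  have h2 : a ⊗ₜ[K] b = 0 := (LinearEquiv.map_eq_zero_iff _).1 h1
  obtain ⟨f, hf⟩ : ∃ f : Module.Dual K (W.H (X.pow m)), f a ≠ 0 := by
    by_contra hcon
    push Not at hcon
    exact ha ((Module.forall_dual_apply_eq_zero_iff K a).1 hcon)
  obtain ⟨g, hg⟩ : ∃ g : Module.Dual K (W.H (X.pow m')), g b ≠ 0 := by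
    by_contra hcon
    push Not at hcon
    exact hb ((Module.forall_dual_apply_eq_zero_iff K b).1 hcon)
  have h3 := congrArg (LinearMap.mul' K K ∘ₗ TensorProduct.map f g) h2
  rw [LinearMap.comp_apply, TensorProduct.map_tmul, LinearMap.mul'_apply, map_zero] at h3
  exact mul_ne_zero hf hg h3

lemma tr_splitM {X : 𝒱.Obj} {m d : ℕ} (u : W.H ((X.pow m).prod (X.pow d))) :
    W.tr _ (W.pull (Obj.splitM X m d) u) = W.tr _ u := by
  refine W.kunneth_induction (X.pow m) (X.pow d) (P := fun u =>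
    W.tr _ (W.pull (Obj.splitM X m d) u) = W.tr _ u) ?_ ?_ u
  · intro a b ha hb
    rw [map_add, map_add, map_add, ha, hb]
  · intro x y
    rw [W.pull_splitM, W.boxNZ_tr_box2, W.tr_prod]

/-- The external product of an operator on `H(X^m)` and an operator on `H(X^d)`. -/
def boxHom {X : 𝒱.Obj} {m d : ℕ} (φ : Module.End K (W.H (X.pow m)))
    (ψ : Module.End K (W.H (X.pow d))) : Module.End K (W.H (X.pow (m + d))) :=
  (W.pull (Obj.splitM X m d)).toLinearMap ∘ₗ
    W.extHom (Y := X.pow m) (Z := X.pow m) (Y' := X.pow d) (Z' := X.pow d) φ ψ ∘ₗ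
      (W.pull (Obj.joinM X m d)).toLinearMap

lemma boxHom_box2 {X : 𝒱.Obj} {m d : ℕ} (φ : Module.End K (W.H (X.pow m)))
    (ψ : Module.End K (W.H (X.pow d))) (a : W.H (X.pow m)) (b : W.H (X.pow d)) :
    W.boxHom φ ψ (W.box2 a b) = W.box2 (φ a) (ψ b) := by
  unfold boxHom
  rw [LinearMap.comp_apply, LinearMap.comp_apply]
  change W.pull (Obj.splitM X m d) (W.extHom φ ψ (W.pull (Obj.joinM X m d) (W.box2 a b))) = _
  rw [W.pull_joinM, W.extHom_apply, W.pull_splitM]

lemma boxHom_mem [CharZero K] {X : 𝒱.Obj} {m d : ℕ} {φ : Module.End K (W.H (X.pow m))}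
    {ψ : Module.End K (W.H (X.pow d))} (hφ : φ ∈ W.algHom _ _) (hψ : ψ ∈ W.algHom _ _) :
    W.boxHom φ ψ ∈ W.algHom (X.pow (m + d)) (X.pow (m + d)) := by
  unfold boxHom
  exact W.comp_mem_algHom (W.comp_mem_algHom (W.pull_mem_algHom _) (W.extHom_mem_algHom hφ hψ))
    (W.pull_mem_algHom _)

lemma boxHom_adj [CharZero K] {X : 𝒱.Obj} {m d : ℕ} {φ φ' : Module.End K (W.H (X.pow m))}
    {ψ ψ' : Module.End K (W.H (X.pow d))} (hφ : φ ∈ W.algHom _ _) (hφ' : φ' ∈ W.algHom _ _)
    (hψ : ψ ∈ W.algHom _ _) (hψ' : ψ' ∈ W.algHom _ _)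
    (h : ∀ a b, W.tr _ (φ a * b) = W.tr _ (a * φ' b))
    (h' : ∀ a b, W.tr _ (ψ a * b) = W.tr _ (a * ψ' b)) (a b : W.H (X.pow (m + d))) :
    W.tr _ (W.boxHom φ ψ a * b) = W.tr _ (a * W.boxHom φ' ψ' b) := by
  have e : ∀ u : W.H (X.pow (m + d)),
      u = W.pull (Obj.splitM X m d) (W.pull (Obj.joinM X m d) u) := fun u => by
    rw [← W.pull_comp, Obj.split_join, W.pull_id]
  have h1 := W.extHom_adj (Y := X.pow m) (Y' := X.pow d) hφ hφ' hψ hψ' h h'
    (W.pull (Obj.joinM X m d) a) (W.pull (Obj.joinM X m d) b)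
  conv_lhs => rw [e b]
  conv_rhs => rw [e a]
  unfold boxHom
  rw [LinearMap.comp_apply, LinearMap.comp_apply, LinearMap.comp_apply, LinearMap.comp_apply]
  change W.tr _ (W.pull (Obj.splitM X m d) _ * W.pull (Obj.splitM X m d) _) =
    W.tr _ (W.pull (Obj.splitM X m d) _ * W.pull (Obj.splitM X m d) _)
  rw [← map_mul, ← map_mul, W.tr_splitM, W.tr_splitM]
  exact h1

lemma wc_one_ne_zero (X : 𝒱.Obj) : (1 : W.H X) ≠ 0 := by
  intro h
  obtain ⟨x, -, hx⟩ := W.exists_tr_one X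
  rw [← one_mul x, h, zero_mul, map_zero] at hx
  exact zero_ne_one hx

/-- A permutation of the factors preserves the trace. -/
lemma tr_pull_sel [CharZero K] {X : 𝒱.Obj} {m : ℕ} (e : Equiv.Perm (Fin m)) (a : W.H (X.pow m)) :
    W.tr _ (W.pull (Obj.sel X e) a) = W.tr _ a := by
  classical
  let bas := DirectSum.IsInternal.collectedBasis (W.isInternal X) fun i =>
    Module.Free.chooseBasis K (W.grad X i)
  let f : MultilinearMap K (fun _ : Fin m => W.H X) K :=
    (W.tr _ ∘ₗ (W.pull (Obj.sel X e)).toLinearMap).compMultilinearMap (W.pureM X m)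
  let g : MultilinearMap K (fun _ : Fin m => W.H X) K := (W.tr _).compMultilinearMap (W.pureM X m)
  have hfg : f = g := by
    refine Module.Basis.ext_multilinear (fun _ => bas) fun v => ?_
    change W.tr _ (W.pull (Obj.sel X e) (W.pureM X m fun s => bas (v s))) =
      W.tr _ (W.pureM X m fun s => bas (v s))
    rw [pureM_apply]
    have hp : ∀ s, W.par X (bas (v s)) = ((-1 : K) ^ (v s).1) • bas (v s) := fun s =>
      W.par_apply (DirectSum.IsInternal.collectedBasis_mem _ _ _)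
    by_cases hev : ∀ s, Even (v s).1
    · obtain ⟨ε, -, h⟩ := W.pull_sel_pureT (X := X) e fun _ => 0
      have h1 := h (fun _ => 1) fun s => by
        rw [W.par_apply (SetLike.one_mem_graded (W.grad X))]
      have h2 : W.pureT (fun _ : Fin m => (1 : W.H X)) = 1 := by
        unfold pureT
        simp
      have hε : (1 : W.H (X.pow m)) = ε • 1 := by
        rw [h2, map_one] at h1
        exact h1
      have h3 := h (fun s => bas (v s)) fun s => by
        rw [hp, (hev s).neg_one_pow, pow_zero]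
      have hε1 : ε = 1 := by
        have h4 : (1 - ε) • (1 : W.H (X.pow m)) = 0 := by rw [sub_smul, one_smul, ← hε, sub_self]
        rcases smul_eq_zero.1 h4 with h5 | h5
        · exact (sub_eq_zero.1 h5).symm
        · exact absurd h5 (W.wc_one_ne_zero _)
      rw [h3, hε1, one_smul, tr_pureT, tr_pureT]
      exact Equiv.prod_comp e.symm fun s => W.tr X (bas (v s))
    · push Not at hev
      obtain ⟨s, hs⟩ := hev
      have h0 : W.tr X (bas (v s)) = 0 := by
        have h1 := W.tr_par (bas (v s))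
        rw [hp, (Nat.not_even_iff_odd.1 hs).neg_one_pow, neg_one_smul, map_neg] at h1
        have h2 : (2 : K) * W.tr X (bas (v s)) = 0 := by linear_combination -h1
        exact (mul_eq_zero.1 h2).resolve_left two_ne_zero
      obtain ⟨ε, -, h⟩ := W.pull_sel_pureT (X := X) e fun s => (v s).1
      have h5 : ∏ t, W.tr X (bas (v (e.symm t))) = 0 :=
        Finset.prod_eq_zero (Finset.mem_univ (e s)) (by rw [Equiv.symm_apply_apply]; exact h0)
      have h6 : ∏ t, W.tr X (bas (v t)) = 0 := Finset.prod_eq_zero (Finset.mem_univ s) h0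
      rw [h _ hp, map_smul, tr_pureT, tr_pureT, h5, h6, smul_zero]
  refine W.pure_induction (P := fun a => W.tr _ (W.pull (Obj.sel X e) a) = W.tr _ a) ?_ ?_ ?_ a
  · intro a b ha hb
    rw [map_add, map_add, map_add, ha, hb]
  · intro c a ha
    rw [map_smul, map_smul, map_smul, ha]
  · intro v
    have := congrArg (fun F : MultilinearMap K (fun _ : Fin m => W.H X) K => F v) hfg
    change W.tr _ (W.pull (Obj.sel X e) (W.pureM X m v)) = W.tr _ (W.pureM X m v) at this
    rwa [pureM_apply] at this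

end Weil

end Pool.Agent.WeilH_h6
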