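import Pool.Agent.W_f569db_h6.WcSym

set_option autoImplicit false

/-!
# Contraction of the product of a Weil class and an algebraic class
-/

noncomputable section

namespace Pool.Agent.WeilH_h6

open AlgebraicGeometry CategoryTheory MonoidalCategory
open scoped TensorProduct DirectSum
open VarClass

universe u v w

/-- `N` copies of a list. -/
def lrep {β : Type} : ℕ → List β → List β
  | 0, _ => []
  | N + 1, L => lrep N L ++ L

namespace Weil

variable {k : Type u} [Field k] {𝒱 : VarClass k} {K : Type v} [Field K] (W : Weil.{u, v, w} 𝒱 K)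

lemma NT.list_prod {Y : 𝒱.Obj} {N : ℕ} {A : Fin (N + 1) → W.H Y} (h : ∀ k, W.NT (A k)) :
    W.NT (List.ofFn A).prod := by
  rw [List.ofFn_succ, List.prod_cons]
  refine (h 0).mul W (W.box_list_prod_mem _ fun x hx => ?_)
  obtain ⟨k, rfl⟩ := (List.mem_ofFn' _ _).1 hx
  exact (h k.succ).1

lemma box_pull_box2 {X : 𝒱.Obj} {N m M M' : ℕ} (f : X.pow m ⟶ X.pow (M + M')) (u : W.H (X.pow M))
    {Z : W.H (X.pow M')} (hZ : Z ∈ W.algSpan _) :
    W.box (fun _ : Fin N => W.pull f (W.box2 u Z)) =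
      (List.ofFn fun k : Fin N => W.pull ((Obj.sel X fun s => finProdFinEquiv (k, s)) ≫ f ≫
        Obj.sel X (Fin.natAdd M)) Z).prod *
      (List.ofFn fun k : Fin N => W.pull ((Obj.sel X fun s => finProdFinEquiv (k, s)) ≫ f ≫
        Obj.sel X (Fin.castAdd M')) u).prod := by
  rw [boxNZ_list]
  · unfold box
    congr 2
    funext k
    unfold box2
    rw [map_mul, map_mul, W.pull_comp, W.pull_comp, W.pull_comp, W.pull_comp]
    exact (W.central (W.pull_mem_algSpan _ (W.pull_mem_algSpan _ (W.pull_mem_algSpan _ hZ))) _).symm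
  · intro k x
    exact W.central (W.pull_mem_algSpan _ hZ) x

lemma pull_pt {Y : 𝒱.Obj} (g : Y ⟶ Obj.pt) (u : W.H (Obj.pt : 𝒱.Obj)) :
    W.pull g u = W.tr Obj.pt u • (1 : W.H Y) := by
  conv_lhs => rw [W.eq_smul_one u]
  rw [map_smul, map_one]

lemma append_boxLine {X Y : 𝒱.Obj} {m m' d : ℕ} {A : Submodule K (W.H (X.pow m))}
    {A' : Submodule K (W.H (X.pow m'))} {V : Submodule K (W.H X)} (g₁ : Y ⟶ X.pow (m + d))
    (G : Y ⟶ X.pow m') (w : W.H Y)
    (hG : ∀ u₁ ∈ A, ∃ u ∈ A', W.pull G u = w * W.pull (g₁ ≫ Obj.sel X (Fin.castAdd d)) u₁)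
    (u₁ : W.H (X.pow (m + d))) (hu₁ : u₁ ∈ W.boxLine A V d) :
    ∃ u ∈ W.boxLine A' V d, W.pull (Obj.joinP G (g₁ ≫ Obj.sel X (Fin.natAdd m))) u =
      w * W.pull g₁ u₁ := by
  unfold boxLine at hu₁
  induction hu₁ using Submodule.span_induction with
  | mem y hy =>
    obtain ⟨z, hz, v, hv, rfl⟩ := hy
    obtain ⟨u, hu, hu'⟩ := hG z hz
    refine ⟨W.box2 u (W.detClass v), Submodule.subset_span ⟨u, hu, v, hv, rfl⟩, ?_⟩
    rw [W.pull_joinP, hu', mul_assoc]
    congr 1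
    unfold box2
    rw [map_mul, ← W.pull_comp, ← W.pull_comp]
  | zero => exact ⟨0, Submodule.zero_mem _, by rw [map_zero, map_zero, mul_zero]⟩
  | add y y' _ _ hy hy' =>
    obtain ⟨u, hu, hu'⟩ := hy
    obtain ⟨v, hv, hv'⟩ := hy'
    exact ⟨u + v, Submodule.add_mem _ hu hv, by rw [map_add, map_add, hu', hv', mul_add]⟩
  | smul t y _ hy =>
    obtain ⟨u, hu, hu'⟩ := hy
    exact ⟨t • u, Submodule.smul_mem _ _ hu, by rw [map_smul, map_smul, hu', mul_smul_comm]⟩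

variable {W}

namespace Pieces

variable {X : 𝒱.Obj} {I : Type} (P : W.Pieces X I)

/-- Products of pull-backs of elements of Weil lines are pull-backs of elements of a Weil line. -/
lemma exists_append (ε : Bool) {Y : 𝒱.Obj} (L₂ : List (I × Bool)) (g₂ : Y ⟶ X.pow (P.wlen L₂))
    (u₂ : W.H (X.pow (P.wlen L₂))) (hu₂ : u₂ ∈ P.weil ε L₂) (L₁ : List (I × Bool)) :
    ∀ g₁ : Y ⟶ X.pow (P.wlen L₁),
      ∃ G : Y ⟶ X.pow (P.wlen (L₁ ++ L₂)), ∀ u₁ ∈ P.weil ε L₁,
        ∃ u ∈ P.weil ε (L₁ ++ L₂), W.pull G u = W.pull g₂ u₂ * W.pull g₁ u₁ := by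
  induction L₁ with
  | nil =>
    intro g₁
    refine ⟨g₂, fun u₁ _ => ⟨W.tr Obj.pt u₁ • u₂, Submodule.smul_mem _ _ hu₂, ?_⟩⟩
    have h1 : W.pull g₁ u₁ = W.tr Obj.pt u₁ • (1 : W.H Y) := W.pull_pt g₁ u₁
    rw [h1, map_smul, mul_smul_comm, mul_one]
  | cons x L₁ ih =>
    intro g₁
    let g₁' : Y ⟶ X.pow (P.wlen L₁ + P.rk x.1) := g₁
    obtain ⟨G, hG⟩ := ih (g₁' ≫ Obj.sel X (Fin.castAdd (P.rk x.1)))
    exact ⟨_, W.append_boxLine (d := P.rk x.1) (V := P.letter (x.1, x.2 == ε)) g₁' G _ hG⟩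

/-- The product of `N` pull-backs of an element of the Weil line `D_L` is the pull-back of an element
of the Weil line `D_{N L}`. -/
lemma exists_lrep (ε : Bool) {Y : 𝒱.Obj} (L : List (I × Bool)) (u : W.H (X.pow (P.wlen L)))
    (hu : u ∈ P.weil ε L) (N : ℕ) : ∀ g : Fin N → (Y ⟶ X.pow (P.wlen L)),
      ∃ G : Y ⟶ X.pow (P.wlen (lrep N L)), ∃ u' ∈ P.weil ε (lrep N L),
        W.pull G u' = (List.ofFn fun k => W.pull (g k) u).prod := by
  induction N with
  | zero =>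
    intro g
    change ∃ G : Y ⟶ X.pow (P.wlen []), ∃ u' ∈ P.weil ε [], _
    refine ⟨Y.toPt, 1, Submodule.mem_top, ?_⟩
    rw [List.ofFn_zero, List.prod_nil]
    exact map_one _
  | succ N ih =>
    intro g
    obtain ⟨G, u', hu', hG⟩ := ih fun k => g k.succ
    obtain ⟨G', hG'⟩ := P.exists_append ε L (g 0) u hu (lrep N L) G
    obtain ⟨u'', hu'', h⟩ := hG' u' hu'
    refine ⟨G', u'', hu'', h.trans ?_⟩
    rw [hG, List.ofFn_succ, List.prod_cons]

/-- Contraction: if a trace invariant of the matrix of `u ⊠ Z`, with `u` in the Weil line `D_{∓L}`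
and `Z` algebraic, is not zero, then a Weil line `D_{±NL}` is algebraic. -/
lemma weil_of_trace [CharZero K] (ε : Bool) (L : List (I × Bool)) (u : W.H (X.pow (P.wlen L)))
    (hu : u ∈ P.weil ε L) {M' : ℕ} {Z : W.H (X.pow M')} (hZ : Z ∈ W.algSpan _) {r : ℕ}
    (e : Fin (P.wlen L + M') ≃ Fin (r + r)) (d : ℕ) (σ : Equiv.Perm (Fin (d + 1) × Fin r))
    (h : W.tr (X.pow ((d + 1) * r * 2)) (W.pull (Obj.sel X (legs d r σ))
      (W.box fun _ : Fin (d + 1) => W.pull (Obj.sel X e) (W.box2 u Z)) *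
        W.theta X ((d + 1) * r)) ≠ 0) :
    ∃ b : W.H (X.pow (P.wlen (lrep (d + 1) L))), b ∈ W.algSpan _ ∧ (W.NT Z → W.NT b) ∧
      P.weil (!ε) (lrep (d + 1) L) = Submodule.span K {b} := by
  let Q := Obj.sel X (legs d r σ)
  let A : W.H (X.pow ((d + 1) * r * 2)) := (List.ofFn fun k : Fin (d + 1) => W.pull Q
    (W.pull ((Obj.sel X fun s => finProdFinEquiv (k, s)) ≫ Obj.sel X e ≫
        Obj.sel X (Fin.natAdd (P.wlen L))) Z)).prod
  obtain ⟨G, u', hu', hG⟩ := P.exists_lrep ε (Y := X.pow ((d + 1) * r * 2)) L u hu (d + 1)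
    fun k => Q ≫ (Obj.sel X fun s => finProdFinEquiv (k, s)) ≫ Obj.sel X e ≫
      Obj.sel X (Fin.castAdd M')
  have hA1 : A ∈ W.algSpan _ := W.box_list_prod_mem _ fun x hx => by
    obtain ⟨k, rfl⟩ := (List.mem_ofFn' _ _).1 hx
    exact W.pull_mem_algSpan _ (W.pull_mem_algSpan _ hZ)
  have hA2 : W.NT Z → W.NT A := fun hN => NT.list_prod W fun k => (hN.pull W _).pull W _
  have h1 : W.pull Q (W.box fun _ : Fin (d + 1) => W.pull (Obj.sel X e) (W.box2 u Z)) =
      A * W.pull G u' := by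
    rw [W.box_pull_box2 (Obj.sel X e) u hZ, map_mul, map_list_prod (W.pull Q),
      map_list_prod (W.pull Q), List.map_ofFn, List.map_ofFn, hG]
    congr 2
    congr 1
    funext k
    exact (W.pull_comp _ _ _).symm
  have h1' : A * W.theta X ((d + 1) * r) * W.pull G u' =
      W.pull Q (W.box fun _ : Fin (d + 1) => W.pull (Obj.sel X e) (W.box2 u Z)) *
        W.theta X ((d + 1) * r) := by
    rw [h1, mul_assoc A (W.theta X _) _, W.central (W.theta_mem X _) (W.pull G u'), ← mul_assoc]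
  have h2 : W.tr _ ((A * W.theta X ((d + 1) * r)) * W.pull G u') ≠ 0 := by
    rw [h1']
    exact h
  obtain ⟨φ, hφ, hφ2⟩ := W.exists_push G
  rw [← hφ2] at h2
  obtain ⟨T, hT, hT2⟩ := P.proj_line ε (lrep (d + 1) L)
  have h3 : A * W.theta X ((d + 1) * r) ∈ W.algSpan _ := W.mul_mem_algSpan hA1 (W.theta_mem X _)
  refine ⟨T (φ (A * W.theta X ((d + 1) * r))),
    W.algHom_apply_mem hT (W.algHom_apply_mem hφ h3), fun hN => ?_, hT2 _ u' hu' h2⟩
  exact (((hA2 hN).mul W (W.theta_mem X _)).algHom W hφ).algHom W hT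

end Pieces

end Weil

end Pool.Agent.WeilH_h6
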