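import Pool.Agent.WeilH_h6.PieceDefs
import Pool.Agent.WeilH_h6.Box

set_option autoImplicit false

/-!
# The Weil lines of a variety

`detClass v`: the antisymmetrised tensor `∑_σ sign(σ) v_{σ 1} ⊗ ⋯ ⊗ v_{σ d}`; if `v` is a basis of the
subspace `V` of `H(X)`, then it spans the line `det V ⊂ V ⊗ ⋯ ⊗ V ⊂ H(X^d)`.

`weil true L`, for a list `L` of signed indices `(i, ±)`: the *Weil line* `D_L = ⊗_{x ∈ L} det V_x` in
`H(X^M)`, where `V_(i, +) = V_i` and `V_(i, -) = V_i^∨`; `weil false L`: the line `D_{-L}`, in which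
`V_i` and `V_i^∨` are exchanged.
-/

noncomputable section

namespace Pool.Agent.WeilH_h6

open AlgebraicGeometry CategoryTheory MonoidalCategory
open VarClass

universe u v w

namespace Weil

variable {k : Type u} [Field k] {𝒱 : VarClass k} {K : Type v} [Field K] (W : Weil.{u, v, w} 𝒱 K)

/-- The antisymmetrised tensor `∑_σ sign(σ) v_{σ 1} ⊗ ⋯ ⊗ v_{σ d}` in `H(X^d)`. -/
def detClass {X : 𝒱.Obj} {d : ℕ} (v : Fin d → W.H X) : W.H (X.pow d) :=
  ∑ σ : Equiv.Perm (Fin d), ((Equiv.Perm.sign σ : ℤ) : K) • W.pureT fun s => v (σ s)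

variable {W}

namespace Pieces

variable {X : 𝒱.Obj} {I : Type} (P : W.Pieces X I)

/-- The dimension of `V_i` (and of `V_i^∨`). -/
def rk (i : I) : ℕ := Module.finrank K (LinearMap.range (P.p i))

/-- The number `M` of the factors of `X^M` on which the Weil line `D_L` lives. -/
def wlen : List (I × Bool) → ℕ
  | [] => 0
  | x :: L => wlen L + P.rk x.1

/-- The Weil lines: `weil true L` is `D_L = ⊗_{x ∈ L} det V_x`, where `V_(i, true) = V_i` and
`V_(i, false) = V_i^∨`, and `weil false L` is `D_{-L}`, where `V_i` and `V_i^∨` are exchanged.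
The line of the empty list is `H(X^0) = K`, and the line of the list `x :: L` is the external product
of the line of `L` with the line spanned by the antisymmetrised tensors of `dim V_x` elements of
`V_x`. -/
def weil (ε : Bool) : (L : List (I × Bool)) → Submodule K (W.H (X.pow (P.wlen L)))
  | [] => ⊤
  | x :: L => Submodule.span K {a | ∃ z ∈ weil ε L, ∃ v : Fin (P.rk x.1) → W.H X,
      (∀ s, v s ∈ P.letter (x.1, x.2 == ε)) ∧ a = W.box2 z (W.detClass v)}

/-- A list of signed indices is reduced if no index occurs with both signs. -/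
def Reduced (L : List (I × Bool)) : Prop :=
  ∀ i : I, ¬ ((i, true) ∈ L ∧ (i, false) ∈ L)

/-- The multidegree of the Weil line `D_L`: the number of `(i, true)` minus the number of
`(i, false)` in `L`, times the dimension of `V_i`. -/
def wmul (L : List (I × Bool)) (i : I) : ℤ := wdeg L.get i * P.rk i

/-- All elements of the subspace `U` of `H(Y)` are algebraic (`K`-linear combinations of the classes
of algebraic cycles). -/
def IsAlg {Y : 𝒱.Obj} (U : Submodule K (W.H Y)) : Prop := U ≤ W.algSpan Y

/-- All elements of the subspace `U` of `H(Y)` are orthogonal to the classes of all cycles on `Y`. -/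
def IsNum {Y : 𝒱.Obj} (U : Submodule K (W.H Y)) : Prop :=
  ∀ z ∈ U, ∀ (j : ℕ) (z' : Cyc Y j), W.deg (z * W.cl z') = 0

end Pieces

end Weil

end Pool.Agent.WeilH_h6
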