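import Pool.Agent.W_f569db_h6.WcDefs
import Pool.Agent.WeilH_h6.ActC
import Pool.Agent.WeilH_h6.ActD
import Pool.Agent.WeilH_h6.Coord

set_option autoImplicit false

/-!
# Antisymmetrised tensors
-/

noncomputable section

namespace Pool.Agent.WeilH_h6

open AlgebraicGeometry CategoryTheory MonoidalCategory
open scoped TensorProduct DirectSum
open VarClass

universe u v w

namespace Weil

variable {k : Type u} [Field k] {𝒱 : VarClass k} {K : Type v} [Field K] (W : Weil.{u, v, w} 𝒱 K)

/-- `detClass` is the alternatization of the external product. -/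
lemma detClass_eq {X : 𝒱.Obj} {d : ℕ} (v : Fin d → W.H X) :
    W.detClass v = MultilinearMap.alternatization (W.pureM X d) v := by
  rw [MultilinearMap.alternatization_apply]
  unfold detClass
  refine Finset.sum_congr rfl fun σ _ => ?_
  rw [MultilinearMap.domDomCongr_apply, pureM_apply, Units.smul_def, ← Int.cast_smul_eq_zsmul K]

/-- If `e` is a basis of `U`, then `detClass` of any family in `U` is a multiple of `detClass e`. -/
lemma detClass_eq_smul {X : 𝒱.Obj} {d : ℕ} {U : Submodule K (W.H X)}
    (e : Module.Basis (Fin d) K U) (v : Fin d → W.H X) (hv : ∀ s, v s ∈ U) :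
    W.detClass v = e.det (fun s => (⟨v s, hv s⟩ : U)) • W.detClass fun s => (e s : W.H X) := by
  let f : U [⋀^Fin d]→ₗ[K] W.H (X.pow d) :=
    (MultilinearMap.alternatization (W.pureM X d)).compLinearMap U.subtype
  have h : f = (LinearMap.toSpanSingleton K _ (f e)).compAlternatingMap e.det := by
    refine Module.Basis.ext_alternating e fun v hv => ?_
    let σ : Equiv.Perm (Fin d) := Equiv.ofBijective v (Finite.injective_iff_bijective.1 hv)
    have h1 : (fun i => e (v i)) = e ∘ σ := rfl
    rw [h1, LinearMap.compAlternatingMap_apply, AlternatingMap.map_perm, AlternatingMap.map_perm,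
      e.det_self, LinearMap.toSpanSingleton_apply, Units.smul_def, Units.smul_def,
      ← Int.cast_smul_eq_zsmul K, ← Int.cast_smul_eq_zsmul K, smul_assoc, one_smul]
  have h2 : f (fun s => ⟨v s, hv s⟩) = e.det (fun s => (⟨v s, hv s⟩ : U)) • f e := by
    rw [h, LinearMap.compAlternatingMap_apply, LinearMap.toSpanSingleton_apply, ← h]
  rw [detClass_eq, detClass_eq]
  exact h2

lemma detClass_comp_perm {X : 𝒱.Obj} {d : ℕ} (v : Fin d → W.H X) (σ : Equiv.Perm (Fin d)) :
    W.detClass (fun s => v (σ s)) = ((Equiv.Perm.sign σ : ℤ) : K) • W.detClass v := by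
  rw [detClass_eq, detClass_eq]
  have h := AlternatingMap.map_perm (MultilinearMap.alternatization (W.pureM X d)) v σ
  rw [Units.smul_def, ← Int.cast_smul_eq_zsmul K] at h
  exact h

/-- A map of the form `powMap φ` on an antisymmetrised tensor. -/
lemma powMap_detClass {X : 𝒱.Obj} {d : ℕ} (g : Module.End K (W.H X)) (v : Fin d → W.H X) :
    W.powMap d (fun _ => g) (W.detClass v) = W.detClass fun s => g (v s) := by
  unfold detClass
  rw [map_sum]
  refine Finset.sum_congr rfl fun σ _ => ?_
  rw [map_smul, powMap_pureT]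

/-- An antisymmetrised tensor of linearly independent vectors (with a dual family) is not zero. -/
lemma detClass_ne_zero [CharZero K] {X : 𝒱.Obj} {d n : ℕ} (v v' : Fin d → W.H X)
    (hv : ∀ s, W.par X (v s) = ((-1 : K) ^ n) • v s)
    (hv' : ∀ s, W.par X (v' s) = ((-1 : K) ^ n) • v' s) {c : K} (hc : c ≠ 0)
    (h : ∀ s t, W.tr X (v s * v' t) = if s = t then c else 0) : W.detClass v ≠ 0 := by
  classical
  obtain ⟨ε, hε, hm⟩ := W.Coord_mul (X := X) d fun _ => n
  intro h0
  have h1 : W.tr _ (W.detClass v * W.pureT v') = ε * c ^ d := by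
    unfold detClass
    rw [Finset.sum_mul, map_sum, Finset.sum_eq_single 1]
    · rw [Equiv.Perm.sign_one, Units.val_one, Int.cast_one, one_smul]
      change W.tr _ (W.pureT v * W.pureT v') = _
      rw [hm v v' hv hv', map_smul, tr_pureT, smul_eq_mul]
      congr 1
      rw [Finset.prod_congr rfl fun s _ => (h s s).trans (if_pos rfl), Finset.prod_const,
        Finset.card_univ, Fintype.card_fin]
    · intro σ _ hσ
      rw [smul_mul_assoc, map_smul, hm _ v' (fun s => hv _) hv', map_smul, tr_pureT]
      obtain ⟨s, hs⟩ : ∃ s, σ s ≠ s := by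
        by_contra hcon
        push Not at hcon
        exact hσ (Equiv.ext hcon)
      rw [Finset.prod_eq_zero (Finset.mem_univ s) ((h _ _).trans (if_neg hs)), smul_zero, smul_zero]
    · intro hh
      exact absurd (Finset.mem_univ _) hh
  rw [h0, zero_mul, map_zero] at h1
  exact mul_ne_zero hε (pow_ne_zero _ hc) h1.symm

variable {W}

namespace Pieces

variable {X : 𝒱.Obj} {I : Type} (P : W.Pieces X I)

/-- Dual bases of `V_i` and `V_i^∨`. -/
lemma letter_bases [CharZero K] (i : I) :
    ∃ (e : Module.Basis (Fin (P.rk i)) K (P.letter (i, true)))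
      (e' : Module.Basis (Fin (P.rk i)) K (P.letter (i, false))),
      ∀ s t, W.tr X ((e' s : W.H X) * e t) = if s = t then 1 else 0 := by
  classical
  obtain ⟨n, b, b', hb, hb', hs, hs', hd⟩ := W.exists_dual_bases (W.isAlgEnd_iff.1 (P.alg i))
    (P.idem_comp i) (P.adj i)
  have hl : P.letter (i, true) = LinearMap.range (P.p i) := rfl
  have hl' : P.letter (i, false) = LinearMap.range (P.p' i) := rfl
  let c : Fin n → P.letter (i, true) := fun j => ⟨b j, ⟨b j, hb j⟩⟩
  let c' : Fin n → P.letter (i, false) := fun j => ⟨b' j, ⟨b' j, hb' j⟩⟩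
  have hc1 : LinearIndependent K c := by
    rw [Fintype.linearIndependent_iff]
    intro t ht j
    have h1 : ∑ j, t j • b j = 0 := by
      have := congrArg Subtype.val ht
      rw [Submodule.coe_sum] at this
      exact this
    have h2 : W.tr X (b' j * ∑ j, t j • b j) = W.tr X (b' j * 0) := by rw [h1]
    rw [Finset.mul_sum, map_sum, mul_zero, map_zero, Finset.sum_eq_single j] at h2
    · rwa [mul_smul_comm, map_smul, hd, if_pos rfl, smul_eq_mul, mul_one] at h2
    · intro j' _ hj
      rw [mul_smul_comm, map_smul, hd, if_neg (Ne.symm hj), smul_zero]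
    · intro h; exact absurd (Finset.mem_univ _) h
  have hc1' : LinearIndependent K c' := by
    rw [Fintype.linearIndependent_iff]
    intro t ht j
    have h1 : ∑ j, t j • b' j = 0 := by
      have := congrArg Subtype.val ht
      rw [Submodule.coe_sum] at this
      exact this
    have h2 : W.tr X ((∑ j, t j • b' j) * b j) = W.tr X (0 * b j) := by rw [h1]
    rw [Finset.sum_mul, map_sum, zero_mul, map_zero, Finset.sum_eq_single j] at h2
    · rwa [smul_mul_assoc, map_smul, hd, if_pos rfl, smul_eq_mul, mul_one] at h2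
    · intro j' _ hj
      rw [smul_mul_assoc, map_smul, hd, if_neg hj, smul_zero]
    · intro h; exact absurd (Finset.mem_univ _) h
  have hc2 : ⊤ ≤ Submodule.span K (Set.range c) := by
    rintro ⟨x, y, rfl⟩ -
    have h1 := hs y
    have h2 : (Submodule.span K (Set.range b)) = (Submodule.span K (Set.range c)).map
        (P.letter (i, true)).subtype := by
      rw [Submodule.map_span, ← Set.range_comp]
      rfl
    rw [h2] at h1
    obtain ⟨z, hz, hz'⟩ := h1
    have : z = ⟨P.p i y, ⟨y, rfl⟩⟩ := Subtype.ext hz'
    rw [← this]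
    exact hz
  have hc2' : ⊤ ≤ Submodule.span K (Set.range c') := by
    rintro ⟨x, y, rfl⟩ -
    have h1 := hs' y
    have h2 : (Submodule.span K (Set.range b')) = (Submodule.span K (Set.range c')).map
        (P.letter (i, false)).subtype := by
      rw [Submodule.map_span, ← Set.range_comp]
      rfl
    rw [h2] at h1
    obtain ⟨z, hz, hz'⟩ := h1
    have : z = ⟨P.p' i y, ⟨y, rfl⟩⟩ := Subtype.ext hz'
    rw [← this]
    exact hz
  have he : ∀ s t, W.tr X ((Module.Basis.mk hc1' hc2' s : W.H X) * Module.Basis.mk hc1 hc2 t) =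
      if s = t then 1 else 0 := by
    intro s t
    rw [Module.Basis.mk_apply, Module.Basis.mk_apply]
    exact hd s t
  have hn : n = P.rk i := by
    have h := Module.finrank_eq_card_basis (Module.Basis.mk hc1 hc2)
    rw [Fintype.card_fin] at h
    exact h.symm
  generalize Module.Basis.mk hc1 hc2 = e at he
  generalize Module.Basis.mk hc1' hc2' = e' at he
  clear hc1 hc1' hc2 hc2' hb hb' hs hs' hd c c' b b' hl hl'
  subst hn
  exact ⟨e, e', he⟩

end Pieces

end Weil

end Pool.Agent.WeilH_h6
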