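import Pool.Agent.W_f569db_h6.WcMain
import Pool.Agent.WeilH_h6.Orbit
import Pool.Agent.WeilH_h6.RatNT

set_option autoImplicit false

/-!
# Standard conjecture D for all powers and the Weil lines
-/

noncomputable section

namespace Pool.Agent.WeilH_h6

open AlgebraicGeometry CategoryTheory MonoidalCategory
open scoped TensorProduct DirectSum
open VarClass

universe u v w

namespace Weil

variable {k : Type u} [Field k] {𝒱 : VarClass k} {K : Type v} [Field K] {W : Weil.{u, v, w} 𝒱 K}

/-- Orthogonality to the classes of all cycles is orthogonality to their span. -/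
lemma orth_iff {Y : 𝒱.Obj} (z : W.H Y) :
    (∀ (j : ℕ) (z' : Cyc Y j), W.tr Y (z * W.cl z') = 0) ↔
      ∀ b ∈ W.algSpan Y, W.tr Y (z * b) = 0 := by
  constructor
  · intro h b hb
    induction hb using Submodule.span_induction with
    | mem b hb => obtain ⟨j, z', rfl⟩ := hb; exact h j z'
    | zero => rw [mul_zero, map_zero]
    | add a b _ _ ha hb => rw [mul_add, map_add, ha, hb, add_zero]
    | smul c a _ ha => rw [mul_smul_comm, map_smul, ha, smul_zero]
  · exact fun h j z' => h _ (W.cl_mem_algSpan z')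

namespace Pieces

variable {X : 𝒱.Obj} {I : Type} (P : W.Pieces X I)

lemma finrank_weil [CharZero K] (ε : Bool) (L : List (I × Bool)) :
    Module.finrank K (P.weil ε L) = 1 := by
  obtain ⟨u, hu, hL⟩ := P.exists_line ε L
  rw [hL]
  exact finrank_span_singleton hu

lemma isAlg_span {Y : 𝒱.Obj} {b : W.H Y} :
    IsAlg (Submodule.span K {b}) ↔ b ∈ W.algSpan Y := by
  unfold IsAlg
  rw [Submodule.span_singleton_le_iff_mem]

lemma isNum_of_NT {Y : 𝒱.Obj} {b : W.H Y} (h : W.NT b) : IsNum (Submodule.span K {b}) := by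
  intro z hz
  obtain ⟨c, rfl⟩ := Submodule.mem_span_singleton.1 hz
  intro j z'
  rw [smul_mul_assoc]
  change W.tr Y _ = 0
  rw [map_smul, h.2 _ (W.cl_mem_algSpan z'), smul_zero]

/-- A Weil line `D_L` is not orthogonal to the algebraic classes if and only if the Weil line
`D_{-L}` is algebraic. -/
lemma not_isNum_iff [CharZero K] (L : List (I × Bool)) :
    ¬ IsNum (P.weil true L) ↔ IsAlg (P.weil false L) := by
  constructor
  · intro h
    unfold IsNum at h
    push Not at h
    obtain ⟨u, hu, j, z', hne⟩ := h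
    obtain ⟨T, hT, hT2⟩ := P.proj_line true L
    have h1 : W.tr _ (W.cl z' * u) ≠ 0 := by
      rw [W.central (W.cl_mem_algSpan z')]
      exact hne
    have h2 := hT2 _ u hu h1
    rw [Bool.not_true] at h2
    rw [h2, isAlg_span]
    exact W.algHom_apply_mem hT (W.cl_mem_algSpan z')
  · intro h hN
    obtain ⟨u, hu0, huL⟩ := P.exists_line true L
    have hu : u ∈ P.weil true L := by rw [huL]; exact Submodule.mem_span_singleton_self u
    obtain ⟨b, hb⟩ : ∃ b, W.tr _ (b * u) ≠ 0 := by
      by_contra hcon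
      push Not at hcon
      refine hu0 (W.ext_tr' fun v => ?_)
      rw [hcon, mul_zero, map_zero]
    obtain ⟨T, T', h1, h2, h3, h4, c, hc, h5⟩ := P.exists_T true L
    have h6 : W.tr _ (T b * u) ≠ 0 := by
      rw [h3, h5 u hu, mul_smul_comm, map_smul, smul_eq_mul]
      exact mul_ne_zero hc hb
    have h7 : T b ∈ W.algSpan _ := h (h4 b)
    apply h6
    rw [W.central h7]
    exact (orth_iff u).1 (hN u hu) _ h7

/-- If `D` holds for all powers of `X` then the algebraic Weil lines are not numerically trivial. -/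
lemma not_isNum_of_homEqNum [CharZero K] (h : ∀ m, W.HomEqNum (X.pow m)) (L : List (I × Bool))
    (hL : IsAlg (P.weil true L)) : ¬ IsNum (P.weil true L) := by
  intro hN
  obtain ⟨u, hu0, huL⟩ := P.exists_line true L
  have hu : u ∈ P.weil true L := by rw [huL]; exact Submodule.mem_span_singleton_self u
  exact hu0 (W.nt_eq_zero_of_homEqNum (h _) ⟨hL hu, (orth_iff u).1 (hN u hu)⟩)

/-- If no algebraic Weil line with a `G`-invariant multidegree is numerically trivial then `D` holds
for all powers of `X`. -/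
lemma homEqNum_of_weil [CharZero K] [Fintype I] {S : Set (Module.End K (W.H X))} (hgen : P.Generate)
    (hS : P.AbsIrr S) {G : Type} [Group G] [Finite G] [MulAction G I]
    (hG : ∀ (g : G) (m : ℕ) (l : Fin m → I × Bool), P.HasClass l →
      P.HasClass fun s => (g • (l s).1, (l s).2))
    (h : ∀ L : List (I × Bool), Reduced L → (∀ (g : G) (i : I), P.wmul L (g • i) = P.wmul L i) →
      IsAlg (P.weil true L) → ¬ IsNum (P.weil true L)) (m : ℕ) : W.HomEqNum (X.pow m) := by
  classical
  refine W.homEqNum_of_nondeg fun _ ha hb => P.nt_eq_zero_of_words hgen ?_ ⟨ha, hb⟩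
  intro M l z hz hnt
  by_contra hz0
  have := Fintype.ofFinite G
  obtain ⟨D, hD⟩ := P.degMonoid
  -- the product of the conjugates
  have h1 : (∑ g ∈ Finset.univ.erase (1 : G), fun i => wdeg l (g⁻¹ • i)) ∈ D := by
    refine D.sum_mem fun g _ => (hD _).2 ?_
    obtain ⟨z', h2, h3, h4⟩ := hG g M l ⟨z, hz, hnt.1, hz0⟩
    exact ⟨M, _, z', h2, h3, h4, fun i => orbit_wdeg_smul g l i⟩
  obtain ⟨m', l', z', h2, h3, h4, h5⟩ := (hD _).1 h1
  have hdeg : ∀ i, wdeg (Fin.append l l') i = ∑ g : G, wdeg l (g⁻¹ • i) := by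
    intro i
    rw [wdeg_append, h5 i, Finset.sum_apply, ← Finset.add_sum_erase _ _ (Finset.mem_univ (1 : G)),
      inv_one, one_smul]
  obtain ⟨N, L, b, hN, hred, hmul, hL, hb1, hb2⟩ := P.exists_weil hS
    (P.box2_mem_wordPart hz h2) (W.box2_mem hnt.1 h3) (W.wc_box2_ne_zero hz0 h4)
  refine h L hred ?_ ?_ ?_
  · intro g i
    rw [hmul, hmul, hdeg, hdeg]
    congr 1
    rw [← Equiv.sum_comp (Equiv.mulLeft g)]
    refine Finset.sum_congr rfl fun g' _ => ?_
    rw [Equiv.coe_mulLeft, mul_inv_rev, mul_smul, inv_smul_smul]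
  · rw [hL, isAlg_span]
    exact hb1
  · rw [hL]
    exact isNum_of_NT (hb2 (NT.box2 W hnt h3))

end Pieces

end Weil

end Pool.Agent.WeilH_h6
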