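import Pool.Agent.W_f569db_h6.WcWord
import Pool.Agent.W_f569db_h6.Core2
import Pool.Agent.WeilH_h6.Gen

set_option autoImplicit false

/-!
# A nonzero algebraic class in a word part makes a Weil line algebraic
-/

noncomputable section

namespace Pool.Agent.WeilH_h6

open AlgebraicGeometry CategoryTheory MonoidalCategory
open scoped TensorProduct DirectSum
open VarClass

universe u v w

namespace Weil

variable {k : Type u} [Field k] {𝒱 : VarClass k} {K : Type v} [Field K] {W : Weil.{u, v, w} 𝒱 K}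

namespace Pieces

variable {X : 𝒱.Obj} {I : Type} (P : W.Pieces X I)

/-- A nonzero class of the sorted form which is preserved up to scalars by the symmetries has a
nonzero complete contraction. -/
lemma exists_contraction [CharZero K] [Fintype I] {S : Set (Module.End K (W.H X))}
    (hS : P.AbsIrr S) {r : ℕ} (w : Fin r → I) {z : W.H (X.pow (r + r))}
    (hz : z ∈ P.wordPart (Fin.append (fun s => (w s, false)) fun s => (w s, true))) (hz0 : z ≠ 0)
    (hsm : ∀ g ∈ S, ∃ ρ : K, W.powMap (r + r) (fun _ => g) z = ρ • z) :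
    ∃ (d : ℕ) (σ : Equiv.Perm (Fin (d + 1) × Fin r)),
      W.tr (X.pow ((d + 1) * r * 2)) (W.pull (Obj.sel X (legs d r σ))
        (W.box fun _ : Fin (d + 1) => z) * W.theta X ((d + 1) * r)) ≠ 0 := by
  classical
  obtain ⟨B⟩ := P.exists_bases
  obtain ⟨x, hx, rfl⟩ := B.exists_mat w hz
  have hx0 : x ≠ 0 := by
    rintro rfl
    apply hz0
    simp [ofMat]
  -- the matrices of the symmetries
  have hmat : ∀ g : S, ∃ γ : (Matrix B.α B.α K)ˣ, γ ∈ H69.BG B.col K ∧
      (∀ a, (g : Module.End K (W.H X)) (B.b a) = ∑ a', (γ : Matrix B.α B.α K) a' a • B.b a') ∧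
      ∃ ρ' : K, H69.ten (Fin r) (γ : Matrix B.α B.α K) * x =
        ρ' • (x * H69.ten (Fin r) (γ : Matrix B.α B.α K)) := by
    intro g
    obtain ⟨c, hc⟩ := hS.symm g g.2
    obtain ⟨γ, h1, h2, h3⟩ := B.exists_matrix hc (hS.comm g g.2)
    obtain ⟨ρ, hρ⟩ := hsm g g.2
    exact ⟨γ, h1, h2, B.commute_smul hc γ h1 h2 h3 w x hx hρ⟩
  choose γ hγ1 hγ2 hγ3 using hmat
  have hunit : ∀ a b, B.col a = B.col b → ∃ T ∈ Submodule.span K
      ((fun g : (Matrix B.α B.α K)ˣ => (g : Matrix B.α B.α K)) '' Set.range γ),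
        ∀ a' b', B.col a' = B.col a → B.col b' = B.col a →
          T a' b' = if a' = a ∧ b' = b then 1 else 0 := by
    intro a b hab
    obtain ⟨T0, hT0, hT0'⟩ := hS.span (B.col a)
      ((W.tr X ∘ₗ LinearMap.mulLeft K (B.b' b)).smulRight (B.b a))
    have hind : ∃ T ∈ Submodule.span K
        ((fun g : (Matrix B.α B.α K)ˣ => (g : Matrix B.α B.α K)) '' Set.range γ),
          ∀ a' b', B.col a' = B.col a → B.col b' = B.col a →
            T a' b' = W.tr X (B.b' a' * T0 (B.b b')) := by
      clear hT0'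
      induction hT0 using Submodule.span_induction with
      | mem g hg =>
        refine ⟨_, Submodule.subset_span ⟨_, ⟨⟨g, hg⟩, rfl⟩, rfl⟩, fun a' b' ha' hb' => ?_⟩
        have h1 := hγ2 ⟨g, hg⟩ b'
        change g (B.b b') = _ at h1
        rw [h1, Finset.mul_sum, map_sum, Finset.sum_eq_single a']
        · rw [mul_smul_comm, map_smul, B.dual a' a' rfl, if_pos rfl, smul_eq_mul, mul_one]
        · intro a'' _ hne
          rw [mul_smul_comm, map_smul]
          by_cases hcol : B.col a'' = B.col b'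
          · rw [B.dual a' a'' (by rw [ha', hcol, hb']), if_neg (Ne.symm hne), smul_zero]
          · have : ((γ ⟨g, hg⟩ : (Matrix B.α B.α K)ˣ) : Matrix B.α B.α K) a'' b' = 0 := by
              by_contra h0
              exact hcol ((H69.mem_BG.1 (hγ1 ⟨g, hg⟩)).1 _ _ h0)
            rw [this, zero_smul]
        · intro h; exact absurd (Finset.mem_univ _) h
      | zero => exact ⟨0, Submodule.zero_mem _, fun a' b' _ _ => by simp⟩
      | add T1 T2 _ _ h1 h2 =>
        obtain ⟨M1, hM1, hM1'⟩ := h1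
        obtain ⟨M2, hM2, hM2'⟩ := h2
        refine ⟨M1 + M2, Submodule.add_mem _ hM1 hM2, fun a' b' ha' hb' => ?_⟩
        rw [Matrix.add_apply, hM1' a' b' ha' hb', hM2' a' b' ha' hb', LinearMap.add_apply, mul_add,
          map_add]
      | smul t T1 _ h1 =>
        obtain ⟨M1, hM1, hM1'⟩ := h1
        refine ⟨t • M1, Submodule.smul_mem _ _ hM1, fun a' b' ha' hb' => ?_⟩
        rw [Matrix.smul_apply, hM1' a' b' ha' hb', LinearMap.smul_apply, mul_smul_comm, map_smul]
    obtain ⟨T, hT, hT'⟩ := hind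
    refine ⟨T, hT, fun a' b' ha' hb' => ?_⟩
    rw [hT' a' b' ha' hb']
    have h2 : T0 (B.b b') = (if b = b' then (1 : K) else 0) • B.b a := by
      have h3 := hT0' (B.b b')
      rw [← hb', B.p_b b', hb'] at h3
      rw [h3, LinearMap.smulRight_apply, LinearMap.comp_apply, LinearMap.mulLeft_apply,
        B.dual b b' (by rw [← hab, hb']), map_smul, B.p_b a]
    rw [h2, mul_smul_comm, map_smul, B.dual a' a ha', smul_eq_mul]
    by_cases h3 : b = b'
    · subst h3
      by_cases h4 : a' = a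
      · simp [h4]
      · simp [h4]
    · rw [if_neg h3, zero_mul, if_neg (fun h => h3 h.2.symm)]
  obtain ⟨d, σ, hd⟩ := H69.core_smul B.col w x hx0 hx (Set.range γ)
    (by rintro _ ⟨g, rfl⟩; exact hγ1 g) hunit (by rintro _ ⟨g, rfl⟩; exact hγ3 g)
  refine ⟨d, σ, fun h0 => hd ?_⟩
  refine W.contract B.col P.n B.b B.b' ?_ ?_ B.dual w x hx d σ h0
  · intro a
    rw [← B.p_b a]
    exact P.par_p _ _
  · intro a
    rw [← B.p'_b' a]
    exact P.par_p' _ _

/-- In a nonzero word part no letter is zero. -/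
lemma rk_ne_zero {m : ℕ} {l : Fin m → I × Bool} {z : W.H (X.pow m)} (hz : z ∈ P.wordPart l)
    (hz0 : z ≠ 0) [CharZero K] (s : Fin m) : P.rk (l s).1 ≠ 0 := by
  intro h
  apply hz0
  obtain ⟨e, -, -, -, -⟩ := P.letter_bases' (l s)
  have h1 : P.letter (l s) = ⊥ := by
    rw [h] at e
    have : Subsingleton (P.letter (l s)) := ⟨fun a b => by
      rw [← e.sum_repr a, ← e.sum_repr b]
      simp⟩
    exact (Submodule.eq_bot_of_subsingleton)
  clear hz0
  unfold wordPart partOf at hz
  induction hz using Submodule.span_induction with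
  | mem a ha =>
    obtain ⟨v, hv, rfl⟩ := ha
    have h2 : v s = 0 := by
      have h3 : v s ∈ P.letter (l s) := hv s
      rw [h1] at h3
      exact (Submodule.mem_bot K).1 h3
    rw [← pureM_apply]
    exact (W.pureM X m).map_coord_zero s h2
  | zero => rfl
  | add a b _ _ ha hb => rw [ha, hb, add_zero]
  | smul c a _ ha => rw [ha, smul_zero]

/-- Main theorem: a nonzero algebraic class `z` in a word part makes a Weil line of a proportional
multidegree algebraic; and if `z` is numerically trivial then so is the Weil line. -/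
theorem exists_weil [CharZero K] [Fintype I] {S : Set (Module.End K (W.H X))} (hS : P.AbsIrr S)
    {m : ℕ} {l : Fin m → I × Bool} {z : W.H (X.pow m)} (hz : z ∈ P.wordPart l)
    (ha : z ∈ W.algSpan _) (hz0 : z ≠ 0) :
    ∃ (N : ℕ) (L : List (I × Bool)) (b : W.H (X.pow (P.wlen L))), 1 ≤ N ∧ Reduced L ∧
      (∀ i, wmul P L i = N * wdeg l i) ∧ P.weil true L = Submodule.span K {b} ∧
      b ∈ W.algSpan _ ∧ (W.NT z → W.NT b) := by
  classical
  have hrk := P.rk_ne_zero hz hz0
  let R : ℕ := ∏ i : I, if P.rk i = 0 then 1 else P.rk i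
  have hR : R ≠ 0 := by
    refine Finset.prod_ne_zero_iff.2 fun i _ => ?_
    split_ifs with h
    · exact one_ne_zero
    · exact h
  obtain ⟨R', hR'⟩ : ∃ R', R = R' + 1 := ⟨R - 1, by omega⟩
  have hdvd : ∀ i, P.rk i ≠ 0 → ∃ c : ℕ, R = P.rk i * c := by
    intro i hi
    have h1 : (if P.rk i = 0 then 1 else P.rk i) ∣ R :=
      Finset.dvd_prod_of_mem (fun i => if P.rk i = 0 then 1 else P.rk i) (Finset.mem_univ i)
    rw [if_neg hi] at h1
    exact h1
  have hq : ∀ i, ∃ q : ℤ, q * P.rk i = R * wdeg l i := by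
    intro i
    by_cases hi : P.rk i = 0
    · refine ⟨0, ?_⟩
      have h1 : wdeg l i = 0 := by
        rw [wdeg_eq_sum]
        refine Finset.sum_eq_zero fun s _ => ?_
        have h2 : (l s).1 ≠ i := by
          rintro rfl
          exact hrk s hi
        unfold sg
        rw [if_neg, if_neg, sub_zero]
        · intro h; exact h2 (by rw [h])
        · intro h; exact h2 (by rw [h])
      rw [h1, zero_mul, mul_zero]
    · obtain ⟨c, hc⟩ := hdvd i hi
      refine ⟨c * wdeg l i, ?_⟩
      rw [hc]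
      push_cast
      ring
  choose q hq using hq
  obtain ⟨L, hL1, hL2, -⟩ := exists_list q Finset.univ
  have hL2' : ∀ i, ldg L i = q i := fun i => hL2 i (Finset.mem_univ i)
  set Z := W.box (fun _ : Fin (R' + 1) => z) with hZ
  have hZw := P.box_mem_wordPart (N := R' + 1) fun _ => hz
  have hZa : Z ∈ W.algSpan _ := W.box_mem fun _ => ha
  have hZ0 : Z ≠ 0 := W.box_ne_zero (fun _ => ha) fun _ => hz0
  obtain ⟨u, hu0, huL⟩ := P.exists_line false L
  have hu : u ∈ P.weil false L := by
    rw [huL]; exact Submodule.mem_span_singleton_self u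
  have hY := P.box2_mem_wordPart (P.weil_le false L hu) hZw
  have hY0 : W.box2 u Z ≠ 0 := W.wc_box2_ne_zero hu0 hZ0
  have hdeg0 : ∀ i, wdeg (Fin.append (P.lword false L)
      fun j : Fin ((R' + 1) * m) => l (finProdFinEquiv.symm j).2) i = 0 := by
    intro i
    rw [wdeg_append, wdeg_box, wdeg_lword, hL2' i, hq i, hR']
    simp
  obtain ⟨r, w, e, he⟩ := sort_word _ hdeg0
  have h1 := P.sel_mem_wordPart e.symm hY
  rw [Equiv.symm_symm] at h1
  have h2 : (fun t => (Fin.append (P.lword false L)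
      fun j : Fin ((R' + 1) * m) => l (finProdFinEquiv.symm j).2) (e t)) =
      Fin.append (fun s => (w s, false)) fun s => (w s, true) := funext he
  rw [h2] at h1
  have h3 : W.pull (Obj.sel X e.symm) (W.box2 u Z) ≠ 0 := fun h => hY0 (W.pull_sel_injective _ h)
  obtain ⟨d, σ, hd⟩ := P.exists_contraction hS w h1 h3 (by
    intro g hg
    obtain ⟨c, hc⟩ := hS.symm g hg
    obtain ⟨ρ, hρ⟩ := P.powMap_weil_smul hc (hS.comm g hg) false L u hu
    obtain ⟨ρ', hρ'⟩ := P.powMap_alg_smul hc hZw hZa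
    refine ⟨ρ * ρ', ?_⟩
    rw [P.powMap_pull_sel hc (hS.comm g hg) e.symm hY, W.powMap_box2, hρ, hρ',
      W.boxNZ_box2_smul_left, W.boxNZ_box2_smul_right, smul_smul, map_smul])
  obtain ⟨b, hb1, hb2, hb3⟩ := P.weil_of_trace false L u hu hZa e.symm d σ hd
  refine ⟨(d + 1) * R, lrep (d + 1) L, b, ?_, ?_, ?_, hb3, hb1, fun hN => hb2 ?_⟩
  · exact Nat.one_le_iff_ne_zero.2 (mul_ne_zero (Nat.succ_ne_zero d) hR)
  · intro i hi
    have h4 := (hL1 _ (mem_lrep hi.1)).2.1 rfl
    have h5 := (hL1 _ (mem_lrep hi.2)).2.2 h4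
    exact absurd h5 (by simp)
  · intro i
    unfold wmul
    rw [wdeg_get, ldg_lrep, hL2' i, mul_assoc, hq i]
    push_cast
    ring
  · exact NT.box W fun _ => hN

end Pieces

end Weil

end Pool.Agent.WeilH_h6
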