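import Pool.Agent.W_f569db_h6.WcT
import Pool.Agent.WeilH_h6.ActMat
import Pool.Agent.WeilH_h6.PartsB

set_option autoImplicit false

/-!
# Symmetries preserve the Weil lines
-/

noncomputable section

namespace Pool.Agent.WeilH_h6

open AlgebraicGeometry CategoryTheory MonoidalCategory
open scoped TensorProduct DirectSum
open VarClass

universe u v w

namespace Weil

variable {k : Type u} [Field k] {𝒱 : VarClass k} {K : Type v} [Field K] (W : Weil.{u, v, w} 𝒱 K)

lemma powMap_box2 {X : 𝒱.Obj} {m d : ℕ} (g : Module.End K (W.H X)) (a : W.H (X.pow m))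
    (b : W.H (X.pow d)) : W.powMap (m + d) (fun _ => g) (W.box2 a b) =
      W.box2 (W.powMap m (fun _ => g) a) (W.powMap d (fun _ => g) b) := by
  refine W.pure_induction (P := fun a => W.powMap (m + d) (fun _ => g) (W.box2 a b) =
      W.box2 (W.powMap m (fun _ => g) a) (W.powMap d (fun _ => g) b)) ?_ ?_ ?_ a
  · intro a a' ha ha'
    rw [boxNZ_box2_add_left, map_add, ha, ha', map_add, boxNZ_box2_add_left]
  · intro c a ha
    rw [boxNZ_box2_smul_left, map_smul, ha, map_smul, boxNZ_box2_smul_left]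
  intro v
  refine W.pure_induction (P := fun b => W.powMap (m + d) (fun _ => g) (W.box2 (W.pureT v) b) =
      W.box2 (W.powMap m (fun _ => g) (W.pureT v)) (W.powMap d (fun _ => g) b)) ?_ ?_ ?_ b
  · intro a a' ha ha'
    rw [boxNZ_box2_add_right, map_add, ha, ha', map_add, boxNZ_box2_add_right]
  · intro c a ha
    rw [boxNZ_box2_smul_right, map_smul, ha, map_smul, boxNZ_box2_smul_right]
  intro v'
  rw [box2_pureT, powMap_pureT, powMap_pureT, powMap_pureT, box2_pureT]
  congr 1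
  funext s
  refine Fin.addCases (fun s => ?_) (fun s => ?_) s
  · rw [Fin.append_left, Fin.append_left]
  · rw [Fin.append_right, Fin.append_right]

lemma powMap_boxLine {X : 𝒱.Obj} {m d : ℕ} {A : Submodule K (W.H (X.pow m))}
    {V : Submodule K (W.H X)} {g : Module.End K (W.H X)}
    (hA : ∀ a ∈ A, W.powMap m (fun _ => g) a ∈ A) (hV : ∀ v ∈ V, g v ∈ V)
    (u : W.H (X.pow (m + d))) (hu : u ∈ W.boxLine A V d) :
    W.powMap (m + d) (fun _ => g) u ∈ W.boxLine A V d := by
  unfold boxLine at hu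
  induction hu using Submodule.span_induction with
  | mem y hy =>
    obtain ⟨z, hz, v, hv, rfl⟩ := hy
    rw [W.powMap_box2, W.powMap_detClass]
    exact Submodule.subset_span ⟨_, hA z hz, _, fun s => hV _ (hv s), rfl⟩
  | zero => rw [map_zero]; exact Submodule.zero_mem _
  | add y y' _ _ hy hy' => rw [map_add]; exact Submodule.add_mem _ hy hy'
  | smul t y _ hy => rw [map_smul]; exact Submodule.smul_mem _ _ hy

variable {W}

namespace Pieces

variable {X : 𝒱.Obj} {I : Type} (P : W.Pieces X I)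

/-- Symmetries which commute with the projectors preserve the letters. -/
lemma letter_stable {g : Module.End K (W.H X)} {c : K} (h : W.IsSymmetry g c)
    (hg : ∀ i v, g (P.p i v) = P.p i (g v)) (x : I × Bool) (v : W.H X) (hv : v ∈ P.letter x) :
    g v ∈ P.letter x := by
  obtain ⟨i, b⟩ := x
  cases b with
  | true =>
    obtain ⟨u, rfl⟩ : ∃ u, P.p i u = v := hv
    exact ⟨g u, (hg i u).symm⟩
  | false =>
    obtain ⟨u, rfl⟩ : ∃ u, P.p' i u = v := hv
    exact ⟨g u, (Bases.actC_comm h hg i u).symm⟩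

/-- Symmetries preserve the Weil lines. -/
lemma powMap_weil {g : Module.End K (W.H X)} {c : K} (h : W.IsSymmetry g c)
    (hg : ∀ i v, g (P.p i v) = P.p i (g v)) (ε : Bool) (L : List (I × Bool)) :
    ∀ u ∈ P.weil ε L, W.powMap _ (fun _ => g) u ∈ P.weil ε L := by
  induction L with
  | nil => exact fun u _ => Submodule.mem_top
  | cons x L ih =>
    exact W.powMap_boxLine ih (P.letter_stable h hg (x.1, x.2 == ε))

lemma powMap_weil_smul [CharZero K] {g : Module.End K (W.H X)} {c : K} (h : W.IsSymmetry g c)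
    (hg : ∀ i v, g (P.p i v) = P.p i (g v)) (ε : Bool) (L : List (I × Bool))
    (u : W.H (X.pow (P.wlen L))) (hu : u ∈ P.weil ε L) :
    ∃ ρ : K, W.powMap _ (fun _ => g) u = ρ • u := by
  obtain ⟨w, hw, hL⟩ := P.exists_line ε L
  by_cases hu0 : u = 0
  · exact ⟨0, by rw [hu0, map_zero, smul_zero]⟩
  have h1 := P.powMap_weil h hg ε L u hu
  rw [hL] at h1 hu
  obtain ⟨s, rfl⟩ := Submodule.mem_span_singleton.1 hu
  obtain ⟨t, ht⟩ := Submodule.mem_span_singleton.1 h1
  have hs : s ≠ 0 := by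
    rintro rfl
    exact hu0 (zero_smul _ _)
  refine ⟨t * s⁻¹, ?_⟩
  rw [← ht, smul_smul, mul_assoc, inv_mul_cancel₀ hs, mul_one]

/-- The degree of a letter. -/
def ldeg (x : I × Bool) : ℕ := if x.2 then P.n x.1 else 2 * X.dim - P.n x.1

lemma letter_mem_grad [CharZero K] (x : I × Bool) (v : W.H X) (hv : v ∈ P.letter x) :
    v ∈ W.grad X (P.ldeg x) := by
  obtain ⟨i, b⟩ := x
  cases b with
  | true =>
    obtain ⟨u, rfl⟩ : ∃ u, P.p i u = v := hv
    exact P.mem_grad i u
  | false =>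
    obtain ⟨u, rfl⟩ : ∃ u, P.p' i u = v := hv
    exact P.mem_grad' i u

lemma wordPart_mem_grad [CharZero K] {m : ℕ} {l : Fin m → I × Bool} {z : W.H (X.pow m)}
    (hz : z ∈ P.wordPart l) : z ∈ W.grad (X.pow m) (∑ s, P.ldeg (l s)) := by
  have h : P.wordPart l ≤ W.grad (X.pow m) (∑ s, P.ldeg (l s)) := by
    refine Submodule.span_le.2 ?_
    rintro _ ⟨v, hv, rfl⟩
    exact W.pureT_mem_grad _ v fun s => P.letter_mem_grad _ _ (hv s)
  exact h hz

/-- Symmetries multiply an algebraic element of a word part by a scalar. -/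
lemma powMap_alg_smul [CharZero K] {g : Module.End K (W.H X)} {c : K} (h : W.IsSymmetry g c)
    {m : ℕ} {l : Fin m → I × Bool} {z : W.H (X.pow m)} (hz : z ∈ P.wordPart l)
    (ha : z ∈ W.algSpan _) : ∃ ρ : K, W.powMap _ (fun _ => g) z = ρ • z := by
  have h1 := P.wordPart_mem_grad hz
  rcases Nat.even_or_odd (∑ s, P.ldeg (l s)) with hev | hodd
  · obtain ⟨j, hj⟩ := hev
    rw [hj, ← two_mul] at h1
    exact ⟨c ^ j, h.apply_homog W ha h1⟩
  · have h2 := W.par_algSpan ha
    rw [W.par_apply h1, hodd.neg_one_pow, neg_one_smul] at h2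
    have h3 : (2 : K) • z = 0 := by
      rw [two_smul]
      nth_rewrite 1 [← h2]
      exact neg_add_cancel z
    have h4 : z = 0 := (smul_eq_zero.1 h3).resolve_left two_ne_zero
    exact ⟨0, by rw [h4, map_zero, smul_zero]⟩

/-- Symmetries commute with the permutations of the factors, on the word parts. -/
lemma powMap_pull_sel [CharZero K] {g : Module.End K (W.H X)} {c : K} (h : W.IsSymmetry g c)
    (hg : ∀ i v, g (P.p i v) = P.p i (g v)) {m M : ℕ} (e : Fin m ≃ Fin M) {l : Fin m → I × Bool}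
    {z : W.H (X.pow m)} (hz : z ∈ P.wordPart l) :
    W.powMap M (fun _ => g) (W.pull (Obj.sel X e) z) =
      W.pull (Obj.sel X e) (W.powMap m (fun _ => g) z) := by
  obtain ⟨ε, -, hε⟩ := W.pull_sel_pureT (X := X) e fun s => P.n (l s).1
  unfold wordPart partOf at hz
  induction hz using Submodule.span_induction with
  | mem a ha =>
    obtain ⟨v, hv, rfl⟩ := ha
    rw [hε v fun s => P.par_letter _ _ (hv s), powMap_pureT, map_smul, powMap_pureT,
      hε _ fun s => P.par_letter _ _ (P.letter_stable h hg _ _ (hv s))]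
  | zero => rw [map_zero, map_zero, map_zero, map_zero]
  | add a b _ _ ha hb => rw [map_add, map_add, map_add, map_add, ha, hb]
  | smul c a _ ha => rw [map_smul, map_smul, map_smul, map_smul, ha]

/-- The matrix of a class which is multiplied by a scalar by the symmetry `g` commutes with the matrix
of `g` up to a scalar. -/
lemma Bases.commute_smul [CharZero K] {P : W.Pieces X I} (B : P.Bases) {g : Module.End K (W.H X)}
    {c : K} (h : W.IsSymmetry g c)
    (γ : (Matrix B.α B.α K)ˣ) (hγ : γ ∈ H69.BG B.col K)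
    (h1 : ∀ a, g (B.b a) = ∑ a', (γ : Matrix B.α B.α K) a' a • B.b a')
    (h2 : ∀ a, g (B.b' a) = c ^ X.dim •
        ∑ a', ((γ⁻¹ : (Matrix B.α B.α K)ˣ) : Matrix B.α B.α K) a a' • B.b' a')
    {r : ℕ} (w : Fin r → I) (x : Matrix (Fin r → B.α) (Fin r → B.α) K)
    (hx : H69.Supp B.col w x) {ρ : K}
    (hρ : W.powMap (r + r) (fun _ => g) (W.ofMat B.b B.b' x) = ρ • W.ofMat B.b B.b' x) :
    ∃ ρ' : K, H69.ten (Fin r) (γ : Matrix B.α B.α K) * x =
      ρ' • (x * H69.ten (Fin r) (γ : Matrix B.α B.α K)) := by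
  have hc : c ^ (r * X.dim) ≠ 0 := pow_ne_zero _ h.ne_zero
  rw [B.actE_ofMat γ h1 h2 x] at hρ
  have e2 : W.ofMat B.b B.b' (H69.ten (Fin r) (γ : Matrix B.α B.α K) * x *
        H69.ten (Fin r) ((γ⁻¹ : (Matrix B.α B.α K)ˣ) : Matrix B.α B.α K)) =
      W.ofMat B.b B.b' (((c ^ (r * X.dim))⁻¹ * ρ) • x) := by
    have h3 : W.ofMat B.b B.b' (((c ^ (r * X.dim))⁻¹ * ρ) • x) =
        ((c ^ (r * X.dim))⁻¹ * ρ) • W.ofMat B.b B.b' x := by
      unfold ofMat
      rw [Finset.smul_sum]
      refine Finset.sum_congr rfl fun a _ => ?_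
      rw [Finset.smul_sum]
      refine Finset.sum_congr rfl fun b _ => ?_
      rw [Matrix.smul_apply, smul_eq_mul, mul_smul]
    rw [h3, mul_smul, ← hρ, smul_smul, inv_mul_cancel₀ hc, one_smul]
  obtain ⟨hγ1, hγ2⟩ := H69.mem_BG.1 hγ
  have hs : H69.Supp B.col w (H69.ten (Fin r) (γ : Matrix B.α B.α K) * x *
        H69.ten (Fin r) ((γ⁻¹ : (Matrix B.α B.α K)ˣ) : Matrix B.α B.α K)) := by
    intro a d had
    rw [Matrix.mul_apply] at had
    obtain ⟨e, -, he⟩ := Finset.exists_ne_zero_of_sum_ne_zero had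
    have he1 := left_ne_zero_of_mul he
    have he2 := right_ne_zero_of_mul he
    rw [Matrix.mul_apply] at he1
    obtain ⟨f, -, hf⟩ := Finset.exists_ne_zero_of_sum_ne_zero he1
    have hf1 := left_ne_zero_of_mul hf
    have hf2 := hx _ _ (right_ne_zero_of_mul hf)
    exact ⟨fun s => (H69.ten_ne_zero hγ1 hf1 s).trans (hf2.1 s),
      fun s => (H69.ten_ne_zero hγ2 he2 s).symm.trans (hf2.2 s)⟩
  have hs' : H69.Supp B.col w (((c ^ (r * X.dim))⁻¹ * ρ) • x) := by
    intro a d had
    rw [Matrix.smul_apply, smul_eq_mul] at had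
    exact hx a d (right_ne_zero_of_mul had)
  have e3 := B.ofMat_injective w _ _ hs hs' e2
  refine ⟨(c ^ (r * X.dim))⁻¹ * ρ, ?_⟩
  calc H69.ten (Fin r) (γ : Matrix B.α B.α K) * x =
      H69.ten (Fin r) (γ : Matrix B.α B.α K) * x *
        H69.ten (Fin r) ((γ⁻¹ : (Matrix B.α B.α K)ˣ) : Matrix B.α B.α K) *
        H69.ten (Fin r) (γ : Matrix B.α B.α K) := by
        rw [Matrix.mul_assoc _ (H69.ten (Fin r) ((γ⁻¹ : (Matrix B.α B.α K)ˣ) : Matrix B.α B.α K)),
          H69.ten_inv_mul, Matrix.mul_one]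
    _ = _ := by rw [e3, Matrix.smul_mul]

end Pieces

end Weil

end Pool.Agent.WeilH_h6
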