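import Pool.Agent.W_f569db_h6.WcDet
import Pool.Agent.W_f569db_h6.WcBox

set_option autoImplicit false

/-!
# The Weil lines are lines, and the algebraic projectors onto them
-/

noncomputable section

namespace Pool.Agent.WeilH_h6

open AlgebraicGeometry CategoryTheory MonoidalCategory
open scoped TensorProduct DirectSum
open VarClass

universe u v w

namespace Weil

variable {k : Type u} [Field k] {𝒱 : VarClass k} {K : Type v} [Field K] (W : Weil.{u, v, w} 𝒱 K)

lemma pull_sel_pull_symm {X : 𝒱.Obj} {m : ℕ} (e : Equiv.Perm (Fin m)) (b : W.H (X.pow m)) :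
    W.pull (Obj.sel X e) (W.pull (Obj.sel X e.symm) b) = b := by
  have h1 : Obj.sel X e ≫ Obj.sel X e.symm = 𝟙 (X.pow m) := by
    refine Obj.pow_hom_ext fun s => ?_
    rw [Category.assoc, Obj.sel_proj, Obj.sel_proj, Equiv.apply_symm_apply, Category.id_comp]
  rw [← W.pull_comp, h1, W.pull_id]

lemma sign_mul_self (d : ℕ) (σ : Equiv.Perm (Fin d)) :
    ((Equiv.Perm.sign σ : ℤ) : K) * ((Equiv.Perm.sign σ : ℤ) : K) = 1 := by
  rw [← Int.cast_mul, ← Units.val_mul, Int.units_mul_self, Units.val_one, Int.cast_one]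

/-- Permutation of the factors of an antisymmetrised tensor. -/
lemma pull_sel_detClass {X : 𝒱.Obj} {d n : ℕ} (e : Equiv.Perm (Fin d)) {κ : K}
    (h : ∀ v : Fin d → W.H X, (∀ s, W.par X (v s) = ((-1 : K) ^ n) • v s) →
      W.pull (Obj.sel X e) (W.pureT v) = κ • W.pureT fun t => v (e.symm t)) (v : Fin d → W.H X)
    (hv : ∀ s, W.par X (v s) = ((-1 : K) ^ n) • v s) :
    W.pull (Obj.sel X e) (W.detClass v) =
      (κ * ((Equiv.Perm.sign e : ℤ) : K)) • W.detClass v := by
  unfold detClass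
  rw [map_sum, Finset.smul_sum, ← Equiv.sum_comp (Equiv.mulRight e)]
  refine Finset.sum_congr rfl fun τ _ => ?_
  rw [map_smul, h _ fun s => hv _, smul_smul, smul_smul]
  have h1 : (fun t => v ((Equiv.mulRight e τ : Equiv.Perm (Fin d)) (e.symm t))) =
      fun s => v (τ s) := by
    funext t
    rw [Equiv.coe_mulRight, Equiv.Perm.mul_apply, Equiv.apply_symm_apply]
  rw [h1, Equiv.coe_mulRight, Equiv.Perm.sign_mul, Units.val_mul, Int.cast_mul]
  congr 1
  ring

/-- The external product of a subspace and the line of the antisymmetrised tensors of `d` vectors in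
the subspace `V`. -/
def boxLine {X : 𝒱.Obj} {m : ℕ} (A : Submodule K (W.H (X.pow m))) (V : Submodule K (W.H X)) (d : ℕ) :
    Submodule K (W.H (X.pow (m + d))) :=
  Submodule.span K {a | ∃ z ∈ A, ∃ v : Fin d → W.H X, (∀ s, v s ∈ V) ∧
    a = W.box2 z (W.detClass v)}

lemma boxHom_mem_boxLine {X : 𝒱.Obj} {m d : ℕ} {A : Submodule K (W.H (X.pow m))}
    {V : Submodule K (W.H X)} {T : Module.End K (W.H (X.pow m))} {U : Module.End K (W.H (X.pow d))}
    (hT : ∀ a, T a ∈ A) (hU : ∀ b, U b ∈ Submodule.span K {a | ∃ v : Fin d → W.H X,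
      (∀ s, v s ∈ V) ∧ a = W.detClass v}) (a : W.H (X.pow (m + d))) :
    W.boxHom T U a ∈ W.boxLine A V d := by
  refine W.box2_induction (P := fun a => W.boxHom T U a ∈ W.boxLine A V d) ?_ ?_ a
  · intro a b ha hb
    rw [map_add]; exact Submodule.add_mem _ ha hb
  · intro a b
    rw [W.boxHom_box2]
    have h6 := hU b
    generalize U b = y at h6
    induction h6 using Submodule.span_induction with
    | mem y hy =>
      obtain ⟨v, hv, rfl⟩ := hy
      exact Submodule.subset_span ⟨T a, hT a, v, hv, rfl⟩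
    | zero =>
      have h0 : W.box2 (T a) (0 : W.H (X.pow d)) = 0 := by
        unfold box2; rw [map_zero, mul_zero]
      rw [h0]; exact Submodule.zero_mem _
    | add y y' _ _ hy hy' =>
      rw [W.boxNZ_box2_add_right]; exact Submodule.add_mem _ hy hy'
    | smul t y _ hy =>
      rw [W.boxNZ_box2_smul_right]; exact Submodule.smul_mem _ _ hy

lemma boxHom_boxLine {X : 𝒱.Obj} {m d : ℕ} {A : Submodule K (W.H (X.pow m))}
    {V : Submodule K (W.H X)} {T : Module.End K (W.H (X.pow m))} {U : Module.End K (W.H (X.pow d))}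
    {c c' : K} (hT : ∀ a ∈ A, T a = c • a)
    (hU : ∀ v : Fin d → W.H X, (∀ s, v s ∈ V) → U (W.detClass v) = c' • W.detClass v)
    (u : W.H (X.pow (m + d))) (hu : u ∈ W.boxLine A V d) : W.boxHom T U u = (c * c') • u := by
  unfold boxLine at hu
  induction hu using Submodule.span_induction with
  | mem y hy =>
    obtain ⟨z, hz, v, hv, rfl⟩ := hy
    rw [W.boxHom_box2, hT z hz, hU v hv, W.boxNZ_box2_smul_left, W.boxNZ_box2_smul_right, smul_smul]
  | zero => rw [map_zero, smul_zero]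
  | add y y' _ _ hy hy' => rw [map_add, hy, hy', smul_add]
  | smul t y _ hy => rw [map_smul, hy, smul_comm]

variable {W}

namespace Pieces

variable {X : 𝒱.Obj} {I : Type} (P : W.Pieces X I)

lemma letter_bases' [CharZero K] (x : I × Bool) :
    ∃ (e : Module.Basis (Fin (P.rk x.1)) K (P.letter x))
      (e' : Module.Basis (Fin (P.rk x.1)) K (P.letter (x.1, !x.2))) (c : K), c ≠ 0 ∧
      ∀ s t, W.tr X ((e s : W.H X) * e' t) = if s = t then c else 0 := by
  obtain ⟨i, b⟩ := x
  obtain ⟨e, e', h⟩ := P.letter_bases i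
  cases b with
  | true =>
    refine ⟨e, e', (-1) ^ P.n i, pow_ne_zero _ (neg_ne_zero.2 one_ne_zero), fun s t => ?_⟩
    rw [W.tr_comm, P.par_letter (i, true) _ (e s).2, mul_smul_comm, map_smul, h, smul_eq_mul]
    by_cases hst : s = t
    · rw [if_pos hst, if_pos hst.symm, mul_one]
    · rw [if_neg hst, if_neg (Ne.symm hst), mul_zero]
  | false => exact ⟨e', e, 1, one_ne_zero, h⟩

/-- The determinant line of a letter. -/
lemma exists_det [CharZero K] (x : I × Bool) : ∃ u : W.H (X.pow (P.rk x.1)), u ≠ 0 ∧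
    (∃ v : Fin (P.rk x.1) → W.H X, (∀ s, v s ∈ P.letter x) ∧ u = W.detClass v) ∧
    ∀ v : Fin (P.rk x.1) → W.H X, (∀ s, v s ∈ P.letter x) → ∃ c : K, W.detClass v = c • u := by
  obtain ⟨e, e', c, hc, h⟩ := P.letter_bases' x
  refine ⟨W.detClass fun s => (e s : W.H X), ?_, ⟨_, fun s => (e s).2, rfl⟩,
    fun v hv => ⟨_, W.detClass_eq_smul e v hv⟩⟩
  exact W.detClass_ne_zero _ (fun s => (e' s : W.H X)) (fun s => P.par_letter x _ (e s).2)
    (fun s => P.par_letter (x.1, !x.2) _ (e' s).2) hc h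

/-- The Weil lines are lines. -/
lemma exists_line [CharZero K] (ε : Bool) (L : List (I × Bool)) :
    ∃ u : W.H (X.pow (P.wlen L)), u ≠ 0 ∧ P.weil ε L = Submodule.span K {u} := by
  induction L with
  | nil =>
    refine ⟨1, W.wc_one_ne_zero _, ?_⟩
    refine (Submodule.eq_top_iff'.2 fun x => ?_).symm
    exact Submodule.mem_span_singleton.2 ⟨_, (W.eq_smul_one x).symm⟩
  | cons x L ih =>
    obtain ⟨u, hu, hL⟩ := ih
    obtain ⟨w, hw, ⟨v, hv, hwv⟩, hall⟩ := P.exists_det (x.1, x.2 == ε)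
    refine ⟨W.box2 u w, W.wc_box2_ne_zero hu hw, le_antisymm ?_ ?_⟩
    · refine Submodule.span_le.2 ?_
      rintro _ ⟨z, hz, v', hv', rfl⟩
      rw [hL] at hz
      obtain ⟨c, rfl⟩ := Submodule.mem_span_singleton.1 hz
      obtain ⟨c', hc'⟩ := hall v' hv'
      refine Submodule.mem_span_singleton.2 ⟨c * c', ?_⟩
      have h1 : W.detClass v' = c' • w := hc'
      rw [h1, W.boxNZ_box2_smul_left, W.boxNZ_box2_smul_right, smul_smul]
      rfl
    · rw [Submodule.span_singleton_le_iff_mem]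
      refine Submodule.subset_span ⟨u, ?_, v, hv, ?_⟩
      · rw [hL]; exact Submodule.mem_span_singleton_self u
      · rw [hwv]

/-- The antisymmetrising projector onto the determinant line of a letter. -/
lemma exists_T1 [CharZero K] (x : I × Bool) :
    ∃ T T' : Module.End K (W.H (X.pow (P.rk x.1))), T ∈ W.algHom _ _ ∧ T' ∈ W.algHom _ _ ∧
      (∀ a b, W.tr _ (T a * b) = W.tr _ (a * T' b)) ∧
      (∀ a, T a ∈ Submodule.span K {a | ∃ v : Fin (P.rk x.1) → W.H X,
        (∀ s, v s ∈ P.letter (x.1, !x.2)) ∧ a = W.detClass v}) ∧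
      ∃ c : K, c ≠ 0 ∧ ∀ v : Fin (P.rk x.1) → W.H X, (∀ s, v s ∈ P.letter x) →
        T' (W.detClass v) = c • W.detClass v := by
  classical
  have hκ : ∀ σ : Equiv.Perm (Fin (P.rk x.1)), ∃ κ : K, (κ = 1 ∨ κ = -1) ∧
      ∀ v : Fin (P.rk x.1) → W.H X, (∀ s, W.par X (v s) = ((-1 : K) ^ P.n x.1) • v s) →
        W.pull (Obj.sel X σ) (W.pureT v) = κ • W.pureT fun t => v (σ.symm t) := fun σ =>
    W.pull_sel_pureT (X := X) σ fun _ => P.n x.1
  choose κ hκ1 hκ2 using hκ
  have hκκ : ∀ σ, κ σ * κ σ = 1 := by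
    intro σ
    rcases hκ1 σ with h | h <;> rw [h] <;> norm_num
  obtain ⟨u, hu, ⟨v0, hv0, huv⟩, hall⟩ := P.exists_det x
  have hinv : ∀ σ, κ σ * κ σ.symm = 1 := by
    intro σ
    have h1 := W.pull_sel_pull_symm σ (W.detClass v0)
    rw [W.pull_sel_detClass σ.symm (hκ2 σ.symm) v0 fun s => P.par_letter x _ (hv0 s), map_smul,
      W.pull_sel_detClass σ (hκ2 σ) v0 fun s => P.par_letter x _ (hv0 s), smul_smul,
      Equiv.Perm.sign_symm, ← huv] at h1
    have h2 : (κ σ.symm * ((Equiv.Perm.sign σ : ℤ) : K) * (κ σ * ((Equiv.Perm.sign σ : ℤ) : K)) - 1) •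
        u = 0 := by rw [sub_smul, h1, one_smul, sub_self]
    have h3 := (smul_eq_zero.1 h2).resolve_right hu
    have h4 := sign_mul_self (K := K) _ σ
    linear_combination h3 - κ σ * κ σ.symm * h4
  let A : Module.End K (W.H (X.pow (P.rk x.1))) := W.powMap _ fun _ => P.proj (x.1, !x.2)
  let A' : Module.End K (W.H (X.pow (P.rk x.1))) := W.powMap _ fun _ => P.proj x
  have hA : A ∈ W.algHom _ _ := W.powMap_mem_algHom fun _ => P.proj_mem _
  have hA' : A' ∈ W.algHom _ _ := W.powMap_mem_algHom fun _ => P.proj_mem _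
  have hAA : ∀ a b, W.tr _ (A a * b) = W.tr _ (a * A' b) := by
    intro a b
    have := P.powMap_proj_adj (fun _ : Fin (P.rk x.1) => (x.1, !x.2)) a b
    simp only [Bool.not_not] at this
    exact this
  let T : Module.End K (W.H (X.pow (P.rk x.1))) := ∑ σ : Equiv.Perm (Fin (P.rk x.1)),
    (((Equiv.Perm.sign σ : ℤ) : K) * κ σ) • ((W.pull (Obj.sel X σ)).toLinearMap ∘ₗ A)
  let T' : Module.End K (W.H (X.pow (P.rk x.1))) := ∑ σ : Equiv.Perm (Fin (P.rk x.1)),
    (((Equiv.Perm.sign σ : ℤ) : K) * κ σ) • (A' ∘ₗ (W.pull (Obj.sel X σ.symm)).toLinearMap)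
  have hTa : ∀ a, T a = ∑ σ : Equiv.Perm (Fin (P.rk x.1)),
      (((Equiv.Perm.sign σ : ℤ) : K) * κ σ) • W.pull (Obj.sel X σ) (A a) := by
    intro a
    rw [LinearMap.sum_apply]
    rfl
  have hTa' : ∀ a, T' a = ∑ σ : Equiv.Perm (Fin (P.rk x.1)),
      (((Equiv.Perm.sign σ : ℤ) : K) * κ σ) • A' (W.pull (Obj.sel X σ.symm) a) := by
    intro a
    rw [LinearMap.sum_apply]
    rfl
  refine ⟨T, T', ?_, ?_, ?_, ?_, ?_⟩
  · exact Submodule.sum_mem _ fun σ _ => Submodule.smul_mem _ _
      (W.comp_mem_algHom hA (W.pull_mem_algHom _))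
  · exact Submodule.sum_mem _ fun σ _ => Submodule.smul_mem _ _
      (W.comp_mem_algHom (W.pull_mem_algHom _) hA')
  · intro a b
    rw [hTa, hTa', Finset.sum_mul, Finset.mul_sum, map_sum, map_sum]
    refine Finset.sum_congr rfl fun σ _ => ?_
    rw [smul_mul_assoc, mul_smul_comm, map_smul, map_smul, ← hAA]
    congr 1
    conv_lhs => rw [← W.pull_sel_pull_symm σ b, ← map_mul, W.tr_pull_sel]
  · intro a
    refine W.pure_induction (P := fun a => T a ∈ Submodule.span K {a | ∃ v : Fin (P.rk x.1) → W.H X,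
        (∀ s, v s ∈ P.letter (x.1, !x.2)) ∧ a = W.detClass v}) ?_ ?_ ?_ a
    · intro a b ha hb
      rw [map_add]; exact Submodule.add_mem _ ha hb
    · intro c a ha
      rw [map_smul]; exact Submodule.smul_mem _ _ ha
    · intro v
      refine Submodule.subset_span ⟨fun s => P.proj (x.1, !x.2) (v s),
        fun s => P.proj_apply_mem _ _, ?_⟩
      rw [hTa]
      unfold detClass
      rw [← Equiv.sum_comp (Equiv.inv (Equiv.Perm (Fin (P.rk x.1))))]
      refine Finset.sum_congr rfl fun σ _ => ?_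
      have h1 : A (W.pureT v) = W.pureT fun s => P.proj (x.1, !x.2) (v s) := W.powMap_pureT _ _
      rw [h1, hκ2 _ _ fun s => P.par_letter (x.1, !x.2) _ (P.proj_apply_mem _ _), smul_smul,
        mul_assoc, hκκ, mul_one, Equiv.inv_apply, Equiv.Perm.sign_inv]
      rfl
  · refine ⟨(Fintype.card (Equiv.Perm (Fin (P.rk x.1))) : K), ?_, fun v hv => ?_⟩
    · exact Nat.cast_ne_zero.2 Fintype.card_ne_zero
    · rw [hTa']
      have h1 : ∀ σ : Equiv.Perm (Fin (P.rk x.1)),
          (((Equiv.Perm.sign σ : ℤ) : K) * κ σ) • A' (W.pull (Obj.sel X σ.symm) (W.detClass v)) =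
            W.detClass v := by
        intro σ
        have h2 : A' (W.detClass v) = W.detClass v := by
          have h3 : A' (W.detClass v) = W.detClass fun s => P.proj x (v s) := W.powMap_detClass _ _
          rw [h3]
          congr 1
          funext s
          exact P.proj_eq_self x _ (hv s)
        rw [W.pull_sel_detClass σ.symm (hκ2 σ.symm) v fun s => P.par_letter x _ (hv s), map_smul,
          h2, smul_smul, Equiv.Perm.sign_symm]
        have h4 := sign_mul_self (K := K) _ σ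
        have h5 : ((Equiv.Perm.sign σ : ℤ) : K) * κ σ *
            (κ σ.symm * ((Equiv.Perm.sign σ : ℤ) : K)) = 1 := by
          linear_combination h4 * (κ σ * κ σ.symm) + hinv σ
        rw [h5, one_smul]
      rw [Finset.sum_congr rfl fun σ _ => h1 σ, Finset.sum_const, Finset.card_univ,
        Nat.cast_smul_eq_nsmul]

/-- The algebraic projector onto a Weil line, up to a scalar. -/
lemma exists_T [CharZero K] (ε : Bool) (L : List (I × Bool)) :
    ∃ T T' : Module.End K (W.H (X.pow (P.wlen L))), T ∈ W.algHom _ _ ∧ T' ∈ W.algHom _ _ ∧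
      (∀ a b, W.tr _ (T a * b) = W.tr _ (a * T' b)) ∧ (∀ a, T a ∈ P.weil (!ε) L) ∧
      ∃ c : K, c ≠ 0 ∧ ∀ u ∈ P.weil ε L, T' u = c • u := by
  induction L with
  | nil =>
    exact ⟨LinearMap.id, LinearMap.id, W.id_mem_algHom _, W.id_mem_algHom _, fun a b => rfl,
      fun a => Submodule.mem_top, 1, one_ne_zero, fun u _ => (one_smul K u).symm⟩
  | cons x L ih =>
    obtain ⟨T, T', h1, h2, h3, h4, c, hc, h5⟩ := ih
    obtain ⟨U, U', g1, g2, g3, g4, c', hc', g5⟩ := P.exists_T1 (x.1, x.2 == ε)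
    have h7 : (x.2 == !ε) = !(x.2 == ε) := by
      cases x.2 <;> cases ε <;> rfl
    refine ⟨W.boxHom T U, W.boxHom T' U', W.boxHom_mem h1 g1, W.boxHom_mem h2 g2,
      W.boxHom_adj h1 h2 g1 g2 h3 g3, ?_, c * c', mul_ne_zero hc hc', ?_⟩
    · intro a
      have h8 := W.boxHom_mem_boxLine (V := P.letter (x.1, !(x.2 == ε))) h4 g4 a
      rw [← h7] at h8
      exact h8
    · exact W.boxHom_boxLine (V := P.letter (x.1, x.2 == ε)) h5 g5

/-- If the class `a` is not orthogonal to the Weil line `D_{∓L}`, then an algebraic operator maps `a`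
to a generator of the Weil line `D_{±L}`. -/
lemma proj_line [CharZero K] (ε : Bool) (L : List (I × Bool)) :
    ∃ T ∈ W.algHom (X.pow (P.wlen L)) (X.pow (P.wlen L)), ∀ a, ∀ u ∈ P.weil ε L,
      W.tr _ (a * u) ≠ 0 → P.weil (!ε) L = Submodule.span K {T a} := by
  obtain ⟨T, T', h1, h2, h3, h4, c, hc, h5⟩ := P.exists_T ε L
  refine ⟨T, h1, fun a u hu hau => ?_⟩
  have h0 : T a ≠ 0 := by
    intro h
    have h6 := h3 a u
    rw [h, zero_mul, map_zero, h5 u hu, mul_smul_comm, map_smul, smul_eq_mul] at h6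
    exact mul_ne_zero hc hau h6.symm
  obtain ⟨w, hw, hL⟩ := P.exists_line (!ε) L
  have h7 := h4 a
  rw [hL] at h7 ⊢
  obtain ⟨t, ht⟩ := Submodule.mem_span_singleton.1 h7
  have ht0 : t ≠ 0 := by
    rintro rfl
    rw [zero_smul] at ht
    exact h0 ht.symm
  rw [← ht]
  exact (Submodule.span_singleton_smul_eq (IsUnit.mk0 t ht0) w).symm

end Pieces

end Weil

end Pool.Agent.WeilH_h6
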