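import Pool.Agent.W_f569db_h6.WcContr
import Pool.Agent.WeilH_h6.Words

set_option autoImplicit false

/-!
# The words and the multidegrees of the Weil lines
-/

noncomputable section

namespace Pool.Agent.WeilH_h6

open AlgebraicGeometry CategoryTheory MonoidalCategory
open scoped TensorProduct DirectSum
open VarClass

universe u v w

section comb

variable {I : Type}

open Classical in
/-- The multidegree of a letter. -/
def sg (x : I × Bool) (i : I) : ℤ :=
  (if x = (i, true) then 1 else 0) - (if x = (i, false) then 1 else 0)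

lemma wdeg_eq_sum {m : ℕ} (l : Fin m → I × Bool) (i : I) : wdeg l i = ∑ s, sg (l s) i := by
  classical
  have h : ∀ y : I × Bool, (Nat.card {s // l s = y} : ℤ) = ∑ s, if l s = y then 1 else 0 := by
    intro y
    rw [Nat.card_eq_fintype_card, Fintype.card_subtype, Finset.card_filter]
    push_cast
    rfl
  unfold wdeg sg
  rw [h, h, Finset.sum_sub_distrib]

/-- The multidegree of a list of letters. -/
def ldg (L : List (I × Bool)) (i : I) : ℤ := (L.map fun x => sg x i).sum

lemma wdeg_get (L : List (I × Bool)) (i : I) : wdeg L.get i = ldg L i := by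
  rw [wdeg_eq_sum]
  unfold ldg
  induction L with
  | nil => simp
  | cons x L ih =>
    rw [List.map_cons, List.sum_cons, ← ih]
    exact Fin.sum_univ_succ (n := L.length) fun s => sg ((x :: L).get s) i

lemma ldg_append (L L' : List (I × Bool)) (i : I) : ldg (L ++ L') i = ldg L i + ldg L' i := by
  unfold ldg
  rw [List.map_append, List.sum_append]

lemma ldg_lrep (N : ℕ) (L : List (I × Bool)) (i : I) : ldg (lrep N L) i = N * ldg L i := by
  induction N with
  | zero => simp [lrep, ldg]
  | succ N ih =>
    have : lrep (N + 1) L = lrep N L ++ L := rfl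
    rw [this, ldg_append, ih]
    push_cast
    ring

lemma mem_lrep {N : ℕ} {L : List (I × Bool)} {x : I × Bool} (h : x ∈ lrep N L) : x ∈ L := by
  induction N with
  | zero => exact absurd h (by simp [lrep])
  | succ N ih =>
    have : lrep (N + 1) L = lrep N L ++ L := rfl
    rw [this, List.mem_append] at h
    exact h.elim ih id

lemma sg_true (i j : I) [Decidable (i = j)] : sg (i, true) j = if i = j then 1 else 0 := by
  classical
  unfold sg
  by_cases h : i = j
  · subst h; simp
  · simp [h]

lemma sg_false (i j : I) [Decidable (i = j)] : sg (i, false) j = if i = j then -1 else 0 := by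
  classical
  unfold sg
  by_cases h : i = j
  · subst h; simp
  · simp [h]

lemma exists_list (q : I → ℤ) (s : Finset I) : ∃ L : List (I × Bool),
    (∀ x ∈ L, x.1 ∈ s ∧ (x.2 = true ↔ 0 < q x.1)) ∧
    (∀ i ∈ s, ldg L i = q i) ∧ ∀ i, i ∉ s → ldg L i = 0 := by
  classical
  induction s using Finset.induction_on with
  | empty => exact ⟨[], by simp, by simp, by simp [ldg]⟩
  | insert i s hi ih =>
    obtain ⟨L, h1, h2, h3⟩ := ih
    have hr : ∀ j, ldg (List.replicate (q i).natAbs (i, decide (0 < q i))) j =
        if i = j then q i else 0 := by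
      intro j
      unfold ldg
      rw [List.map_replicate, List.sum_replicate]
      by_cases hq : 0 < q i
      · rw [decide_eq_true hq, sg_true]
        split_ifs with h
        · rw [nsmul_eq_mul, mul_one, Int.natCast_natAbs, abs_of_pos hq]
        · simp
      · rw [decide_eq_false hq, sg_false]
        split_ifs with h
        · rw [nsmul_eq_mul, Int.natCast_natAbs, abs_of_nonpos (not_lt.1 hq)]
          ring
        · simp
    refine ⟨List.replicate (q i).natAbs (i, decide (0 < q i)) ++ L, ?_, ?_, ?_⟩
    · intro x hx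
      rcases List.mem_append.1 hx with hx | hx
      · have := List.eq_of_mem_replicate hx
        subst this
        exact ⟨Finset.mem_insert_self _ _, decide_eq_true_iff⟩
      · exact ⟨Finset.mem_insert_of_mem (h1 x hx).1, (h1 x hx).2⟩
    · intro j hj
      rw [ldg_append, hr]
      rcases Finset.mem_insert.1 hj with rfl | hj
      · rw [if_pos rfl, h3 _ hi, add_zero]
      · rw [if_neg (by rintro rfl; exact hi hj), h2 j hj, zero_add]
    · intro j hj
      rw [Finset.mem_insert, not_or] at hj
      rw [ldg_append, hr, if_neg (Ne.symm hj.1), h3 j hj.2, add_zero]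

end comb

namespace Weil

variable {k : Type u} [Field k] {𝒱 : VarClass k} {K : Type v} [Field K] {W : Weil.{u, v, w} 𝒱 K}

namespace Pieces

variable {X : 𝒱.Obj} {I : Type} (P : W.Pieces X I)

/-- The word of the Weil line. -/
def lword (ε : Bool) : (L : List (I × Bool)) → Fin (P.wlen L) → I × Bool
  | [] => Fin.elim0
  | x :: L => Fin.append (lword ε L) fun _ : Fin (P.rk x.1) => (x.1, x.2 == ε)

lemma detClass_mem (x : I × Bool) {d : ℕ} (v : Fin d → W.H X) (hv : ∀ s, v s ∈ P.letter x) :
    W.detClass v ∈ P.wordPart fun _ : Fin d => x := by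
  unfold detClass
  exact Submodule.sum_mem _ fun σ _ => Submodule.smul_mem _ _
    (Submodule.subset_span ⟨_, fun s => hv _, rfl⟩)

lemma boxLine_le {m d : ℕ} {A : Submodule K (W.H (X.pow m))} {l : Fin m → I × Bool}
    (x : I × Bool) (hA : A ≤ P.wordPart l) :
    W.boxLine A (P.letter x) d ≤ P.wordPart (Fin.append l fun _ : Fin d => x) := by
  unfold boxLine
  refine Submodule.span_le.2 ?_
  rintro _ ⟨z, hz, v, hv, rfl⟩
  exact P.box2_mem_wordPart (hA hz) (P.detClass_mem x v hv)

lemma weil_le (ε : Bool) (L : List (I × Bool)) : P.weil ε L ≤ P.wordPart (P.lword ε L) := by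
  induction L with
  | nil =>
    intro x _
    have h1 : (1 : W.H (X.pow 0)) ∈ P.wordPart (Fin.elim0 : Fin 0 → I × Bool) := by
      refine Submodule.subset_span ⟨Fin.elim0, fun s => s.elim0, ?_⟩
      rw [pureT_zero]
    have h2 : x = W.tr Obj.pt x • 1 := W.eq_smul_one x
    rw [h2]
    exact Submodule.smul_mem _ _ h1
  | cons x L ih => exact P.boxLine_le (d := P.rk x.1) (x.1, x.2 == ε) ih

/-- The multidegree of the word of a Weil line. -/
lemma wdeg_lword (ε : Bool) (L : List (I × Bool)) (i : I) :
    wdeg (P.lword ε L) i = (if ε then 1 else -1) * (ldg L i * P.rk i) := by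
  classical
  induction L with
  | nil =>
    rw [wdeg_eq_sum]
    simp [ldg, wlen]
  | cons x L ih =>
    have h1 : wdeg (P.lword ε (x :: L)) i = wdeg (P.lword ε L) i +
        wdeg (fun _ : Fin (P.rk x.1) => (x.1, x.2 == ε)) i := wdeg_append _ _ i
    have h2 : wdeg (fun _ : Fin (P.rk x.1) => (x.1, x.2 == ε)) i =
        (if ε then 1 else -1) * (sg x i * P.rk i) := by
      rw [wdeg_eq_sum, Finset.sum_const, Finset.card_univ, Fintype.card_fin, nsmul_eq_mul]
      obtain ⟨j, b⟩ := x
      by_cases hj : j = i
      · subst hj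
        cases b <;> cases ε <;> simp [sg_true, sg_false]
      · cases b <;> cases ε <;> simp [sg_true, sg_false, hj]
    have h3 : ldg (x :: L) i = sg x i + ldg L i := by
      unfold ldg
      rw [List.map_cons, List.sum_cons]
    rw [h1, h2, ih, h3]
    ring

end Pieces

end Weil

end Pool.Agent.WeilH_h6
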